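import Pool.Agent.R993.UC.Codes

/-!
# Six qubits: codes versus functions
-/

namespace Pool.Agent.R993.UC

open Matrix Complex Finset
open scoped ComplexOrder

lemma decp_eq (c : ℕ) (hc : c < 4 ^ 6) : decp c = finFunctionFinEquiv.symm ⟨c, hc⟩ := by
  funext j; rfl

lemma decy_eq (k : ℕ) (hk : k < 2 ^ 6) : decy k = finFunctionFinEquiv.symm ⟨k, hk⟩ := by
  funext j; rfl

lemma exists_code (p : Fin 6 → Fin 4) : ∃ c, c < 4096 ∧ decp c = p := by
  refine ⟨(finFunctionFinEquiv p).val, (finFunctionFinEquiv p).isLt, ?_⟩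
  rw [decp_eq _ (finFunctionFinEquiv p).isLt]
  exact finFunctionFinEquiv.symm_apply_apply p

lemma exists_codey (y : Fin 6 → Fin 2) : ∃ k, k < 64 ∧ decy k = y := by
  refine ⟨(finFunctionFinEquiv y).val, (finFunctionFinEquiv y).isLt, ?_⟩
  rw [decy_eq _ (finFunctionFinEquiv y).isLt]
  exact finFunctionFinEquiv.symm_apply_apply y

lemma decp_inj {c d : ℕ} (hc : c < 4096) (hd : d < 4096) (h : decp c = decp d) : c = d := by
  rw [decp_eq c hc, decp_eq d hd] at h
  have := finFunctionFinEquiv.symm.injective h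
  simpa using this

lemma decy_inj {c d : ℕ} (hc : c < 64) (hd : d < 64) (h : decy c = decy d) : c = d := by
  rw [decy_eq c hc, decy_eq d hd] at h
  have := finFunctionFinEquiv.symm.injective h
  simpa using this

lemma sum_codes {M : Type*} [AddCommMonoid M] (F : (Fin 6 → Fin 4) → M) :
    ∑ p, F p = ∑ c ∈ range 4096, F (decp c) := by
  have h1 : ∑ p, F p = ∑ i : Fin (4 ^ 6), F (finFunctionFinEquiv.symm i) :=
    (Equiv.sum_comp finFunctionFinEquiv.symm F).symm
  have h2 : ∑ i : Fin (4 ^ 6), F (finFunctionFinEquiv.symm i) =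
      ∑ i : Fin (4 ^ 6), F (decp (i : ℕ)) :=
    Finset.sum_congr rfl fun i _ => by rw [decp_eq _ i.isLt]
  rw [h1, h2, Fin.sum_univ_eq_sum_range (fun c => F (decp c)) (4 ^ 6)]
  norm_num

lemma sum_codesy {M : Type*} [AddCommMonoid M] (F : (Fin 6 → Fin 2) → M) :
    ∑ y, F y = ∑ k ∈ range 64, F (decy k) := by
  have h1 : ∑ y, F y = ∑ i : Fin (2 ^ 6), F (finFunctionFinEquiv.symm i) :=
    (Equiv.sum_comp finFunctionFinEquiv.symm F).symm
  have h2 : ∑ i : Fin (2 ^ 6), F (finFunctionFinEquiv.symm i) =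
      ∑ i : Fin (2 ^ 6), F (decy (i : ℕ)) :=
    Finset.sum_congr rfl fun i _ => by rw [decy_eq _ i.isLt]
  rw [h1, h2, Fin.sum_univ_eq_sum_range (fun c => F (decy c)) (2 ^ 6)]
  norm_num

lemma xor_div_mod4 (c d j : ℕ) :
    (c ^^^ d) / 4 ^ j % 4 = ((c / 4 ^ j % 4) ^^^ (d / 4 ^ j % 4)) % 4 := by
  have h4 : (4 : ℕ) ^ j = 2 ^ (2 * j) := by rw [pow_mul]; norm_num
  rw [h4]
  apply Nat.eq_of_testBit_eq
  intro i
  have e4 : ∀ x : ℕ, x % 4 = x % 2 ^ 2 := fun x => by norm_num
  rw [e4, e4 (c / _), e4 (d / _), e4 (_ ^^^ _)]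
  simp only [Nat.testBit_mod_two_pow, Nat.testBit_xor, Nat.testBit_div_two_pow]
  by_cases h : i < 2 <;> simp [h]

lemma xor_div_mod2 (c d j : ℕ) :
    (c ^^^ d) / 2 ^ j % 2 = ((c / 2 ^ j % 2) + (d / 2 ^ j % 2)) % 2 := by
  rw [← Nat.toNat_testBit, ← Nat.toNat_testBit, ← Nat.toNat_testBit, Nat.testBit_xor]
  cases c.testBit j <;> cases d.testBit j <;> rfl

lemma decp_xor (c d : ℕ) : decp (c ^^^ d) = fun j => xo (decp c j) (decp d j) := by
  funext j
  apply Fin.ext
  show (c ^^^ d) / 4 ^ (j : ℕ) % 4 = ((c / 4 ^ (j : ℕ) % 4) ^^^ (d / 4 ^ (j : ℕ) % 4)) % 4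
  exact xor_div_mod4 c d j

lemma phs_eq (c d : ℕ) : ∑ j, phi (decp c j) (decp d j) = phs c d := by
  rw [Fin.sum_univ_six]; rfl

lemma kp_eq (c k : ℕ) : ∑ j, kap (decp c j) (decy k j) = kp c k := by
  rw [Fin.sum_univ_six]; rfl

lemma fl_le (a : ℕ) : fl a ≤ 1 := by unfold fl; split_ifs <;> omega

lemma fm_lt (c : ℕ) : fm c < 64 := by
  unfold fm
  have h0 := fl_le (dg c 0); have h1 := fl_le (dg c 1); have h2 := fl_le (dg c 2)
  have h3 := fl_le (dg c 3); have h4 := fl_le (dg c 4); have h5 := fl_le (dg c 5)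
  omega

lemma fm_bit (c : ℕ) (j : Fin 6) : fm c / 2 ^ (j : ℕ) % 2 = fl (dg c j) := by
  have h0 := fl_le (dg c 0); have h1 := fl_le (dg c 1); have h2 := fl_le (dg c 2)
  have h3 := fl_le (dg c 3); have h4 := fl_le (dg c 4); have h5 := fl_le (dg c 5)
  unfold fm
  fin_cases j <;> simp only [Nat.reducePow] <;> norm_num <;> omega

lemma xor_lt64 {k m : ℕ} (hk : k < 64) (hm : m < 64) : k ^^^ m < 64 :=
  Nat.xor_lt_two_pow (n := 6) hk hm

/-- entries in terms of codes -/
lemma entry_code (c k l : ℕ) (hk : k < 64) (hl : l < 64) :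
    pauliString (decp c) (decy l) (decy k) = if l = k ^^^ fm c then I ^ kp c k else 0 := by
  rw [pauliString_apply', kp_eq]
  congr 1
  apply propext
  constructor
  · intro h
    apply decy_inj hl (xor_lt64 hk (fm_lt c))
    funext j
    apply Fin.ext
    have := h j
    show l / 2 ^ (j : ℕ) % 2 = (k ^^^ fm c) / 2 ^ (j : ℕ) % 2
    rw [xor_div_mod2, fm_bit]
    exact this
  · rintro rfl j
    show (k ^^^ fm c) / 2 ^ (j : ℕ) % 2 = (k / 2 ^ (j : ℕ) % 2 + fl (dg c j)) % 2
    rw [xor_div_mod2, fm_bit]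

/-- the action on vectors, in terms of codes -/
lemma mulVec_code (c l : ℕ) (hl : l < 64) (w : (Fin 6 → Fin 2) → ℂ) :
    (pauliString (decp c) *ᵥ w) (decy (l ^^^ fm c)) = I ^ kp c l * w (decy l) := by
  rw [Matrix.mulVec, dotProduct, sum_codesy]
  have hl2 : l ^^^ fm c < 64 := xor_lt64 hl (fm_lt c)
  rw [Finset.sum_eq_single l]
  · rw [entry_code c l _ hl hl2, if_pos rfl]
  · intro k hk hne
    rw [entry_code c k _ (Finset.mem_range.1 hk) hl2, if_neg, zero_mul]
    intro h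
    apply hne
    have := congrArg (fun z => z ^^^ fm c) h
    simpa [Nat.xor_assoc, Nat.xor_self, Nat.xor_zero] using this.symm
  · intro h; exact absurd (Finset.mem_range.2 hl) h

/-! ### Keys and types -/

/-- the key of a string -/
def keyF (p : Fin 6 → Fin 4) : ℕ :=
  (∑ j, (if p j = 0 then 0 else 2 ^ (j : ℕ))) + 64 * #{j | p j = 1} + 512 * #{j | p j = 2}

lemma keyF_decp (c : ℕ) : keyF (decp c) = keyc c := by
  have e : ∀ (j : Fin 6) (a : Fin 4), decp c j = a ↔ dg c j = a.val := by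
    intro j a
    constructor
    · intro h; rw [← h]; rfl
    · intro h; apply Fin.ext; exact h
  have h0 : ∀ j : Fin 6, (if decp c j = 0 then 0 else 2 ^ (j : ℕ)) =
      2 ^ (j : ℕ) * ind (dg c j != 0) := by
    intro j
    by_cases h : dg c j = 0
    · rw [if_pos ((e j 0).2 h), h]; simp [ind]
    · rw [if_neg (fun h' => h ((e j 0).1 h'))]
      have : (dg c j != 0) = true := by simpa using h
      rw [this]; simp [ind]
  have h1 : ∀ a : Fin 4, #{j | decp c j = a} = ∑ j : Fin 6, ind (dg c j == a.val) := by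
    intro a
    rw [Finset.card_filter]
    refine Finset.sum_congr rfl fun j _ => ?_
    by_cases h : dg c j = a.val
    · rw [if_pos ((e j a).2 h), h]; simp [ind]
    · rw [if_neg (fun h' => h ((e j a).1 h'))]
      have : (dg c j == a.val) = false := by simpa using h
      rw [this]; simp [ind]
  unfold keyF
  rw [Finset.sum_congr rfl fun j _ => h0 j, h1 1, h1 2]
  simp only [Fin.sum_univ_six]
  unfold keyc
  simp only [Fin.val_zero, Fin.val_one, Fin.val_two, pow_zero, one_mul, pow_one]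
  rfl

lemma keyF_iff (p q : Fin 6 → Fin 4) : keyF p = keyF q ↔
    (∀ j, p j ≠ 0 ↔ q j ≠ 0) ∧ #{j | p j = 1} = #{j | q j = 1} ∧
      #{j | p j = 2} = #{j | q j = 2} ∧ #{j | p j = 3} = #{j | q j = 3} := by
  have cnt : ∀ p : Fin 6 → Fin 4, #{j | p j ≠ 0} =
      #{j | p j = 1} + #{j | p j = 2} + #{j | p j = 3} := by
    intro p
    rw [Finset.card_filter, Finset.card_filter, Finset.card_filter, Finset.card_filter,
      ← Finset.sum_add_distrib, ← Finset.sum_add_distrib]
    refine Finset.sum_congr rfl fun j _ => ?_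
    generalize p j = a
    revert a; decide
  have cap : ∀ (p : Fin 6 → Fin 4) (a : Fin 4), #{j | p j = a} ≤ 6 := fun p a =>
    (Finset.card_le_univ _).trans (by simp)
  have sm : ∀ p : Fin 6 → Fin 4, (∑ j, (if p j = 0 then 0 else 2 ^ (j : ℕ))) =
      (finFunctionFinEquiv (fun j => if p j = 0 then (0 : Fin 2) else 1) : ℕ) := by
    intro p
    rw [finFunctionFinEquiv_apply]
    refine Finset.sum_congr rfl fun j _ => ?_
    split_ifs <;> simp
  have smlt : ∀ p : Fin 6 → Fin 4, (∑ j, (if p j = 0 then 0 else 2 ^ (j : ℕ))) < 64 := by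
    intro p; rw [sm]; exact (finFunctionFinEquiv _).isLt
  constructor
  · intro h
    unfold keyF at h
    have a1 := smlt p; have a2 := smlt q
    have b1 := cap p 1; have b2 := cap q 1; have c1 := cap p 2; have c2 := cap q 2
    have e1 : (∑ j, (if p j = 0 then 0 else 2 ^ (j : ℕ))) =
        (∑ j, (if q j = 0 then 0 else 2 ^ (j : ℕ))) := by omega
    have e2 : #{j | p j = 1} = #{j | q j = 1} := by omega
    have e3 : #{j | p j = 2} = #{j | q j = 2} := by omega
    have e4 : ∀ j, p j ≠ 0 ↔ q j ≠ 0 := by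
      rw [sm, sm] at e1
      have e5 := finFunctionFinEquiv.injective (Fin.ext e1)
      intro j
      have e6 := congrFun e5 j
      by_cases hp : p j = 0 <;> by_cases hq : q j = 0 <;> simp [hp, hq] at e6 ⊢
    refine ⟨e4, e2, e3, ?_⟩
    have e5 : #{j | p j ≠ 0} = #{j | q j ≠ 0} := by
      congr 1
      ext j
      simp only [Finset.mem_filter, Finset.mem_univ, true_and]
      exact e4 j
    have := cnt p; have := cnt q
    omega
  · rintro ⟨h1, h2, h3, _⟩
    unfold keyF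
    rw [h2, h3]
    congr 2
    refine Finset.sum_congr rfl fun j _ => ?_
    have := h1 j
    by_cases hp : p j = 0 <;> by_cases hq : q j = 0 <;> simp [hp, hq] at this ⊢

lemma trace_symOp (ρ : Mat 6) (J : Finset (Fin 6)) (a b c : ℕ) :
    (ρ * symOp J a b c).trace = ∑ p : Fin 6 → Fin 4 with
      (∀ j, p j ≠ 0 ↔ j ∈ J) ∧ #{j | p j = 1} = a ∧ #{j | p j = 2} = b ∧ #{j | p j = 3} = c,
      E ρ p := by
  rw [symOp, Matrix.mul_sum, Matrix.trace_sum]
  rfl

lemma type_filter (p0 : Fin 6 → Fin 4) :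
    (Finset.univ.filter fun p : Fin 6 → Fin 4 =>
      (∀ j, p j ≠ 0 ↔ j ∈ (Finset.univ.filter fun j => p0 j ≠ 0)) ∧
        #{j | p j = 1} = #{j | p0 j = 1} ∧ #{j | p j = 2} = #{j | p0 j = 2} ∧
        #{j | p j = 3} = #{j | p0 j = 3}) =
    Finset.univ.filter fun p => keyF p = keyF p0 := by
  ext p
  simp only [Finset.mem_filter, Finset.mem_univ, true_and, keyF_iff]

lemma data_key {ρ ρ' : Mat 6} (h : SameData ρ ρ') (p0 : Fin 6 → Fin 4) (h0 : p0 ≠ fun _ => 0) :
    ∑ p with keyF p = keyF p0, E ρ p = ∑ p with keyF p = keyF p0, E ρ' p := by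
  obtain ⟨j0, hj0⟩ := Function.ne_iff.1 h0
  have h1 := h (Finset.univ.filter fun j => p0 j ≠ 0) ⟨j0, by simpa using hj0⟩
    #{j | p0 j = 1} #{j | p0 j = 2} #{j | p0 j = 3} (by
      rw [Finset.card_filter, Finset.card_filter, Finset.card_filter, Finset.card_filter,
        ← Finset.sum_add_distrib, ← Finset.sum_add_distrib]
      refine Finset.sum_congr rfl fun j _ => ?_
      generalize p0 j = a
      revert a; decide)
  rw [trace_symOp, trace_symOp] at h1
  rwa [type_filter] at h1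

lemma key_data {ρ ρ' : Mat 6} (h : ∀ p0 : Fin 6 → Fin 4,
    ∑ p with keyF p = keyF p0, E ρ p = ∑ p with keyF p = keyF p0, E ρ' p) : SameData ρ ρ' := by
  intro J _ a b c _
  rw [trace_symOp, trace_symOp]
  by_cases hne : (Finset.univ.filter fun p : Fin 6 → Fin 4 =>
      (∀ j, p j ≠ 0 ↔ j ∈ J) ∧ #{j | p j = 1} = a ∧ #{j | p j = 2} = b ∧
        #{j | p j = 3} = c).Nonempty
  · obtain ⟨p0, hp0⟩ := hne
    simp only [Finset.mem_filter, Finset.mem_univ, true_and] at hp0
    obtain ⟨hJ, ha, hb, hc⟩ := hp0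
    have hJ' : J = Finset.univ.filter fun j => p0 j ≠ 0 := by
      ext j; simp only [Finset.mem_filter, Finset.mem_univ, true_and]; exact (hJ j).symm
    subst ha hb hc
    rw [hJ', type_filter]
    exact h p0
  · rw [Finset.not_nonempty_iff_eq_empty] at hne
    rw [hne, Finset.sum_empty, Finset.sum_empty]

end Pool.Agent.R993.UC
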