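import Mathlib

/-!
# Uniform certification of stabilizer states: definitions and general lemmas
-/

namespace Pool.Agent.R993.UC

open Matrix Complex Finset
open scoped ComplexOrder

/-- The one-qubit Pauli matrices: `0 ↦ I`, `1 ↦ X`, `2 ↦ Y`, `3 ↦ Z`. -/
def pauli (a : Fin 4) : Matrix (Fin 2) (Fin 2) ℂ :=
  match a with
  | 0 => 1
  | 1 => !![0, 1; 1, 0]
  | 2 => !![0, -I; I, 0]
  | 3 => !![1, 0; 0, -1]

/-- The `N`-qubit Pauli string `σ_{p 0} ⊗ ⋯ ⊗ σ_{p (N-1)}`. -/
def pauliString {N : ℕ} (p : Fin N → Fin 4) :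
    Matrix (Fin N → Fin 2) (Fin N → Fin 2) ℂ :=
  Matrix.of fun x y => ∏ j, pauli (p j) (x j) (y j)

/-- The symmetrized operator `S(a,b,c;J)`: the sum of all Pauli strings with support `J`, with
exactly `a` letters `X`, `b` letters `Y` and `c` letters `Z`. -/
def symOp {N : ℕ} (J : Finset (Fin N)) (a b c : ℕ) :
    Matrix (Fin N → Fin 2) (Fin N → Fin 2) ℂ :=
  ∑ p : Fin N → Fin 4 with
    (∀ j, p j ≠ 0 ↔ j ∈ J) ∧ #{j | p j = 1} = a ∧ #{j | p j = 2} = b ∧ #{j | p j = 3} = c,
    pauliString p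

/-- Two matrices have the same uniform data. -/
def SameData {N : ℕ} (ρ ρ' : Matrix (Fin N → Fin 2) (Fin N → Fin 2) ℂ) : Prop :=
  ∀ J : Finset (Fin N), J.Nonempty → ∀ a b c : ℕ, a + b + c = #J →
    (ρ * symOp J a b c).trace = (ρ' * symOp J a b c).trace

/-- Density matrices. -/
def IsDensity {N : ℕ} (ρ : Matrix (Fin N → Fin 2) (Fin N → Fin 2) ℂ) : Prop :=
  ρ.PosSemidef ∧ ρ.trace = 1

/-- Density matrices of pure states. -/
def IsPure {N : ℕ} (ρ : Matrix (Fin N → Fin 2) (Fin N → Fin 2) ℂ) : Prop :=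
  ∃ v : (Fin N → Fin 2) → ℂ, star v ⬝ᵥ v = 1 ∧ ρ = vecMulVec v (star v)

/-- Signed Pauli strings. -/
def IsSignedPauli {N : ℕ} (g : Matrix (Fin N → Fin 2) (Fin N → Fin 2) ℂ) : Prop :=
  ∃ p : Fin N → Fin 4, g = pauliString p ∨ g = -pauliString p

/-- `G` is an abelian group of `2 ^ N` signed Pauli strings not containing `-1` (signed Pauli
strings square to `1`, so closure under inverses is automatic). -/
structure IsStabGroup {N : ℕ} (G : Set (Matrix (Fin N → Fin 2) (Fin N → Fin 2) ℂ)) : Prop where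
  signed : ∀ g ∈ G, IsSignedPauli g
  one_mem : 1 ∈ G
  mul_mem : ∀ g ∈ G, ∀ h ∈ G, g * h ∈ G
  comm : ∀ g ∈ G, ∀ h ∈ G, g * h = h * g
  card : G.ncard = 2 ^ N
  neg_one : -1 ∉ G

/-- (Density matrices of) stabilizer states. -/
def IsStab {N : ℕ} (ρ : Matrix (Fin N → Fin 2) (Fin N → Fin 2) ℂ) : Prop :=
  ∃ v : (Fin N → Fin 2) → ℂ, star v ⬝ᵥ v = 1 ∧ ρ = vecMulVec v (star v) ∧
    ∃ G : Set (Matrix (Fin N → Fin 2) (Fin N → Fin 2) ℂ), IsStabGroup G ∧
      ∀ g ∈ G, g *ᵥ v = v

/-- `ρ` is uniformly certifiable within the class `C` of density matrices. -/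
def Certifiable {N : ℕ} (C : Set (Matrix (Fin N → Fin 2) (Fin N → Fin 2) ℂ))
    (ρ : Matrix (Fin N → Fin 2) (Fin N → Fin 2) ℂ) : Prop :=
  ∀ σ ∈ C, SameData σ ρ → σ = ρ

/-! ### One-qubit tables -/

/-- product of Pauli letters (without phase) -/
def xo (a b : Fin 4) : Fin 4 := ⟨(a.val ^^^ b.val) % 4, Nat.mod_lt _ (by norm_num)⟩

/-- phase exponent: `σ_a σ_b = I ^ phi a b • σ_{xo a b}` -/
def phi (a b : ℕ) : ℕ :=
  if (a = 1 ∧ b = 2) ∨ (a = 2 ∧ b = 3) ∨ (a = 3 ∧ b = 1) then 1
  else if (a = 2 ∧ b = 1) ∨ (a = 3 ∧ b = 2) ∨ (a = 1 ∧ b = 3) then 3 else 0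

/-- flip bit of a Pauli letter -/
def fl (a : ℕ) : ℕ := if a = 1 ∨ a = 2 then 1 else 0

/-- phase exponent of the entry: `σ_a |y⟩ = I ^ kap a y |y + fl a⟩` -/
def kap (a y : ℕ) : ℕ :=
  if a = 2 then (if y = 0 then 1 else 3) else if a = 3 then 2 * y else 0

lemma pauli_mul (a b : Fin 4) : pauli a * pauli b = (I ^ phi a b) • pauli (xo a b) := by
  have h3 : (I : ℂ) ^ 3 = -I := by rw [pow_succ, I_sq]; ring
  fin_cases a <;> fin_cases b <;> ext i j <;> fin_cases i <;> fin_cases j <;>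
    simp [pauli, phi, xo, Matrix.mul_apply, Fin.sum_univ_two, Matrix.one_apply, h3]

lemma pauli_apply (a : Fin 4) (x y : Fin 2) :
    pauli a x y = if x.val = (y.val + fl a) % 2 then I ^ kap a y else 0 := by
  have h3 : (I : ℂ) ^ 3 = -I := by rw [pow_succ, I_sq]; ring
  fin_cases a <;> fin_cases x <;> fin_cases y <;>
    simp [pauli, fl, kap, Matrix.one_apply, h3]

lemma pauli_trace (a : Fin 4) : (pauli a).trace = if a = 0 then 2 else 0 := by
  fin_cases a <;> simp [pauli, Matrix.trace, Fin.sum_univ_two]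

lemma pauli_star (a : Fin 4) (x y : Fin 2) : star (pauli a y x) = pauli a x y := by
  fin_cases a <;> fin_cases x <;> fin_cases y <;> simp [pauli, Matrix.one_apply]

variable {N : ℕ}

lemma pauliString_apply (p : Fin N → Fin 4) (x y : Fin N → Fin 2) :
    pauliString p x y = ∏ j, pauli (p j) (x j) (y j) := rfl

lemma pauliString_mul (p q : Fin N → Fin 4) :
    pauliString p * pauliString q =
      (I ^ (∑ j, phi (p j) (q j))) • pauliString (fun j => xo (p j) (q j)) := by
  ext x y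
  simp only [Matrix.mul_apply, pauliString_apply, Matrix.smul_apply, smul_eq_mul]
  have h1 : ∀ w : Fin N → Fin 2, (∏ j, pauli (p j) (x j) (w j)) * ∏ j, pauli (q j) (w j) (y j)
      = ∏ j, (pauli (p j) (x j) (w j) * pauli (q j) (w j) (y j)) := by
    intro w; rw [Finset.prod_mul_distrib]
  simp only [h1]
  have h2 := (Finset.prod_univ_sum (fun _ : Fin N => (Finset.univ : Finset (Fin 2)))
    (fun j w => pauli (p j) (x j) w * pauli (q j) w (y j)))
  rw [Fintype.piFinset_univ] at h2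
  rw [← h2, ← Finset.prod_pow_eq_pow_sum, ← Finset.prod_mul_distrib]
  refine Finset.prod_congr rfl fun j _ => ?_
  have h3 := congrFun (congrFun (pauli_mul (p j) (q j)) (x j)) (y j)
  rw [Matrix.mul_apply] at h3
  rw [h3, Matrix.smul_apply, smul_eq_mul]

lemma pauliString_zero : pauliString (fun _ : Fin N => (0 : Fin 4)) = 1 := by
  ext x y
  rw [pauliString_apply]
  have h : ∀ j, pauli 0 (x j) (y j) = if x j = y j then 1 else 0 := by
    intro j; simp [pauli, Matrix.one_apply]
  simp only [h]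
  rw [Matrix.one_apply]
  by_cases hxy : x = y
  · simp [hxy]
  · rw [if_neg hxy]
    obtain ⟨j, hj⟩ := Function.ne_iff.1 hxy
    exact Finset.prod_eq_zero (Finset.mem_univ j) (if_neg hj)

lemma phi_self (a : Fin 4) : phi a a = 0 := by fin_cases a <;> simp [phi]
lemma xo_self (a : Fin 4) : xo a a = 0 := by fin_cases a <;> rfl

lemma pauliString_sq (p : Fin N → Fin 4) : pauliString p * pauliString p = 1 := by
  rw [pauliString_mul]
  simp only [phi_self, xo_self, Finset.sum_const_zero, pow_zero, one_smul]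
  exact pauliString_zero

lemma pauliString_trace (p : Fin N → Fin 4) :
    (pauliString p).trace = if p = (fun _ => 0) then (2 : ℂ) ^ N else 0 := by
  rw [Matrix.trace]
  simp only [Matrix.diag_apply, pauliString_apply]
  have h2 := (Finset.prod_univ_sum (fun _ : Fin N => (Finset.univ : Finset (Fin 2)))
    (fun j w => pauli (p j) w w))
  rw [Fintype.piFinset_univ] at h2
  rw [← h2]
  have h3 : ∀ j, ∑ w, pauli (p j) w w = if p j = 0 then 2 else 0 := fun j => pauli_trace (p j)
  simp only [h3]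
  split_ifs with h
  · subst h; simp
  · obtain ⟨j, hj⟩ := Function.ne_iff.1 h
    exact Finset.prod_eq_zero (Finset.mem_univ j) (if_neg hj)

lemma xo_eq_zero {a b : Fin 4} : xo a b = 0 ↔ a = b := by revert a b; decide

lemma pauliString_trace_mul (p q : Fin N → Fin 4) :
    (pauliString p * pauliString q).trace = if p = q then (2 : ℂ) ^ N else 0 := by
  by_cases h : p = q
  · subst h
    rw [if_pos rfl, pauliString_sq, Matrix.trace_one]
    simp
  · rw [if_neg h, pauliString_mul, Matrix.trace_smul, pauliString_trace, if_neg, smul_zero]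
    intro h2
    apply h
    funext j
    exact xo_eq_zero.1 (congrFun h2 j)

lemma pauliString_conj (p : Fin N → Fin 4) : (pauliString p)ᴴ = pauliString p := by
  ext x y
  rw [Matrix.conjTranspose_apply, pauliString_apply, pauliString_apply, star_prod]
  exact Finset.prod_congr rfl fun j _ => pauli_star _ _ _

/-- entries of a Pauli string -/
lemma pauliString_apply' (p : Fin N → Fin 4) (x y : Fin N → Fin 2) :
    pauliString p x y =
      if (∀ j, (x j).val = ((y j).val + fl (p j)) % 2) then I ^ (∑ j, kap (p j) (y j)) else 0 := by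
  rw [pauliString_apply]
  simp only [pauli_apply]
  split_ifs with h
  · rw [← Finset.prod_pow_eq_pow_sum]
    exact Finset.prod_congr rfl fun j _ => if_pos (h j)
  · push Not at h
    obtain ⟨j, hj⟩ := h
    exact Finset.prod_eq_zero (Finset.mem_univ j) (if_neg hj)

end Pool.Agent.R993.UC
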