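import Pool.Agent.R993.UC.Psi0

/-!
# The stabilizer state: group, vector, expectation values
-/

namespace Pool.Agent.R993.UC

open Matrix Complex Finset
open scoped ComplexOrder

lemma mem_gl {c : ℕ} (hc : c < 4096) (h : gv c ≠ 0) : c ∈ gl := by
  have h1 := allB_spec _ 12 0 chk_gl c (Nat.zero_le _) (by norm_num; exact hc)
  simp only [Bool.or_eq_true, beq_iff_eq, List.contains_iff_mem] at h1
  rcases h1 with h1 | h1
  · exact absurd (by simp [gv, h1]) h
  · exact h1

lemma gl_lt {c : ℕ} (h : c ∈ gl) : c < 4096 := by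
  have h1 := List.all_eq_true.1 chk_gl2 c h
  simp only [Bool.and_eq_true, decide_eq_true_eq] at h1
  exact h1.1

lemma gl_ne {c : ℕ} (h : c ∈ gl) : gv c ≠ 0 := by
  have h1 := List.all_eq_true.1 chk_gl2 c h
  simp only [Bool.and_eq_true, decide_eq_true_eq] at h1
  exact h1.2

lemma gv_cases (c : ℕ) : gv c = 1 ∨ gv c = -1 ∨ gv c = 0 := by
  unfold gv; split_ifs <;> simp

lemma gv_pm {c : ℕ} (h : gv c ≠ 0) : gv c = 1 ∨ gv c = -1 := by
  rcases gv_cases c with h1 | h1 | h1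
  · exact Or.inl h1
  · exact Or.inr h1
  · exact absurd h1 h

/-- the stabilizer group -/
def GP : Set (Mat 6) := {g | ∃ c, c < 4096 ∧ gv c ≠ 0 ∧ g = ((gv c : ℤ) : ℂ) • pauliString (decp c)}

lemma signed_inj {a b : ℂ} (ha : a ≠ 0) (hb : b ≠ 0) {p q : Fin 6 → Fin 4}
    (h : a • pauliString p = b • pauliString q) : p = q ∧ a = b := by
  have h1 := congrArg (fun M => (M * pauliString p).trace) h
  simp only [Matrix.smul_mul, Matrix.trace_smul, pauliString_trace_mul, smul_eq_mul, if_true] at h1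
  have hpq : q = p := by
    by_contra hne
    rw [if_neg hne, mul_zero] at h1
    rcases mul_eq_zero.1 h1 with h2 | h2
    · exact ha h2
    · norm_num at h2
  refine ⟨hpq.symm, ?_⟩
  rw [if_pos hpq] at h1
  exact mul_right_cancel₀ (by norm_num) h1

lemma cast_ne {c : ℕ} (h : gv c ≠ 0) : ((gv c : ℤ) : ℂ) ≠ 0 := by exact_mod_cast h

lemma GP_signed : ∀ g ∈ GP, IsSignedPauli g := by
  rintro g ⟨c, _, h, rfl⟩
  rcases gv_pm h with h | h
  · exact ⟨decp c, Or.inl (by rw [h]; simp)⟩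
  · exact ⟨decp c, Or.inr (by rw [h]; simp)⟩

lemma decp_zero : decp 0 = fun _ => 0 := by
  funext j; apply Fin.ext; simp [decp]

lemma GP_one : (1 : Mat 6) ∈ GP := by
  have h : gv 0 = 1 := by decide +kernel
  refine ⟨0, by norm_num, by rw [h]; norm_num, ?_⟩
  rw [h, decp_zero, pauliString_zero]; simp

lemma GP_mul : ∀ g ∈ GP, ∀ h ∈ GP, g * h ∈ GP := by
  rintro g ⟨c, hc, h, rfl⟩ g' ⟨d, hd, h', rfl⟩
  have h1 := List.all_eq_true.1 (List.all_eq_true.1 chk_mul c (mem_gl hc h)) d (mem_gl hd h')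
  simp only [Bool.or_eq_true, Bool.and_eq_true, beq_iff_eq] at h1
  have hx : c ^^^ d < 4096 := Nat.xor_lt_two_pow (n := 12) hc hd
  have hm : (((gv c : ℤ) : ℂ) • pauliString (decp c)) * (((gv d : ℤ) : ℂ) • pauliString (decp d)) =
      (((gv c : ℤ) : ℂ) * ((gv d : ℤ) : ℂ) * I ^ (phs c d % 4)) • pauliString (decp (c ^^^ d)) := by
    rw [Matrix.smul_mul, Matrix.mul_smul, pauliString_mul, phs_eq, ← decp_xor, I_pow_mod,
      smul_smul, smul_smul]
  rw [hm]
  have hne : gv c * gv d ≠ 0 := mul_ne_zero h h'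
  rcases h1 with ⟨h1, h2⟩ | ⟨h1, h2⟩
  · refine ⟨c ^^^ d, hx, by rw [h2]; exact hne, ?_⟩
    rw [h1, h2]; push_cast; simp
  · refine ⟨c ^^^ d, hx, by rw [h2]; exact neg_ne_zero.2 hne, ?_⟩
    rw [h1, h2]; push_cast; rw [I_sq]; congr 1; ring

lemma GP_neg_one : (-1 : Mat 6) ∉ GP := by
  rintro ⟨c, hc, h, he⟩
  have h1 : (-1 : ℂ) • pauliString (decp 0) = ((gv c : ℤ) : ℂ) • pauliString (decp c) := by
    rw [decp_zero, pauliString_zero, ← he]; simp
  obtain ⟨h2, h3⟩ := signed_inj (by norm_num) (cast_ne h) h1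
  have h4 := decp_inj (by norm_num) hc h2
  subst h4
  have h : gv 0 = 1 := by decide +kernel
  rw [h] at h3
  norm_num at h3

lemma comm_of_closed {N : ℕ} {G : Set (Mat N)} (hs : ∀ g ∈ G, IsSignedPauli g)
    (hm : ∀ g ∈ G, ∀ h ∈ G, g * h ∈ G) : ∀ g ∈ G, ∀ h ∈ G, g * h = h * g := by
  intro g hg h hh
  have h1 : (g * h) * (g * h) = 1 := signed_sq (hs _ (hm g hg h hh))
  have h2 : g * g = 1 := signed_sq (hs g hg)
  have h3 : h * h = 1 := signed_sq (hs h hh)
  calc g * h = (g * h) * ((g * g)) := by rw [h2, mul_one]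
    _ = (g * h) * (g * (h * h) * g) := by rw [h3, mul_one]
    _ = ((g * h) * (g * h)) * (h * g) := by simp only [mul_assoc]
    _ = h * g := by rw [h1, one_mul]

lemma GP_eq : GP = (fun c => ((gv c : ℤ) : ℂ) • pauliString (decp c)) '' (↑gl.toFinset : Set ℕ) := by
  ext g
  constructor
  · rintro ⟨c, hc, h, rfl⟩
    exact ⟨c, by simpa using mem_gl hc h, rfl⟩
  · rintro ⟨c, hc, rfl⟩
    have hc' : c ∈ gl := by simpa using hc
    exact ⟨c, gl_lt hc', gl_ne hc', rfl⟩

lemma GP_card : GP.ncard = 2 ^ 6 := by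
  rw [GP_eq, Set.ncard_image_of_injOn, Set.ncard_coe_finset, List.toFinset_card_of_nodup gl_nodup]
  · rfl
  · intro c hc d hd hcd
    have hc' : c ∈ gl := by simpa using hc
    have hd' : d ∈ gl := by simpa using hd
    exact decp_inj (gl_lt hc') (gl_lt hd')
      (signed_inj (cast_ne (gl_ne hc')) (cast_ne (gl_ne hd')) hcd).1

lemma GP_stab : IsStabGroup GP where
  signed := GP_signed
  one_mem := GP_one
  mul_mem := GP_mul
  comm := comm_of_closed GP_signed GP_mul
  card := GP_card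
  neg_one := GP_neg_one

/-! ### The vector -/

/-- amplitude from its code: `0 ↦ 0`, `n ↦ I ^ (n - 1)` -/
noncomputable def uc (n : ℕ) : ℂ := if n = 0 then 0 else I ^ (n + 3)

/-- the unnormalised stabilizer vector -/
noncomputable def u0 : (Fin 6 → Fin 2) → ℂ := fun y => uc (amp (finFunctionFinEquiv y : ℕ))

lemma code_decy {k : ℕ} (hk : k < 64) : ((finFunctionFinEquiv (decy k) : Fin (2 ^ 6)) : ℕ) = k := by
  rw [decy_eq k hk, Equiv.apply_symm_apply]

lemma u0_decy {k : ℕ} (hk : k < 64) : u0 (decy k) = uc (amp k) := by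
  rw [u0, code_decy hk]

/-- normalisation -/
noncomputable def rr : ℂ := (((Real.sqrt 32)⁻¹ : ℝ) : ℂ)

lemma rr_sq : rr * rr = 1 / 32 := by
  rw [rr, ← Complex.ofReal_mul, ← mul_inv, Real.mul_self_sqrt (by norm_num)]
  push_cast; norm_num

lemma rr_star : star rr = rr := by
  rw [rr]; exact Complex.conj_ofReal _

lemma uc_norm (n : ℕ) : star (uc n) * uc n = if n = 0 then 0 else 1 := by
  unfold uc
  split_ifs with h
  · simp
  · have : star (I ^ (n + 3)) = (-I) ^ (n + 3) := by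
      rw [star_pow]; congr 1; exact Complex.conj_I
    rw [this, ← mul_pow]
    have : -I * I = 1 := by rw [neg_mul, I_mul_I, neg_neg]
    rw [this, one_pow]

lemma sum_amp : ∑ k ∈ range 64, (if amp k = 0 then (0 : ℂ) else 1) = 32 := by
  have h := chk_norm
  rw [sumB_spec] at h
  have h2 := congrArg (fun z : ℤ => (z : ℂ)) h
  push_cast at h2
  norm_num at h2
  exact h2

lemma u0_norm : star u0 ⬝ᵥ u0 = 32 := by
  rw [dotProduct, sum_codesy, ← sum_amp]
  refine Finset.sum_congr rfl fun k hk => ?_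
  rw [Pi.star_apply, u0_decy (Finset.mem_range.1 hk), uc_norm]

/-- the stabilizer vector -/
noncomputable def vP : (Fin 6 → Fin 2) → ℂ := rr • u0

lemma vP_norm : star vP ⬝ᵥ vP = 1 := by
  rw [vP, star_smul, smul_dotProduct, dotProduct_smul, u0_norm, rr_star, smul_eq_mul, smul_eq_mul,
    ← mul_assoc, rr_sq]
  norm_num

lemma gv_pow (c : ℕ) (h : gv c ≠ 0) :
    ((gv c : ℤ) : ℂ) = I ^ (if gv c = -1 then 2 else 0) := by
  rcases gv_pm h with h1 | h1
  · rw [h1]; simp
  · rw [h1]; simp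

lemma xor_xor_self' (k m : ℕ) : (k ^^^ m) ^^^ m = k := by
  rw [Nat.xor_assoc, Nat.xor_self, Nat.xor_zero]

lemma GP_fix_u0 : ∀ g ∈ GP, g *ᵥ u0 = u0 := by
  rintro g ⟨c, hc, h, rfl⟩
  funext y
  obtain ⟨l, hl, rfl⟩ := exists_codey y
  set k := l ^^^ fm c with hk
  have hk64 : k < 64 := xor_lt64 hl (fm_lt c)
  have hlk : l = k ^^^ fm c := (xor_xor_self' l (fm c)).symm
  rw [Matrix.smul_mulVec, Pi.smul_apply, smul_eq_mul]
  conv_lhs => rw [hlk]
  rw [mulVec_code c k hk64, u0_decy hk64, u0_decy hl]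
  have h1 := allB_spec _ 6 0 (List.all_eq_true.1 chk_fix c (mem_gl hc h)) k (Nat.zero_le _)
    (by norm_num; exact hk64)
  simp only [Bool.or_eq_true, Bool.and_eq_true, beq_iff_eq, bne_iff_ne, ne_eq] at h1
  rw [← hlk] at h1
  rcases h1 with ⟨h1, h2⟩ | ⟨⟨h1, h2⟩, h3⟩
  · rw [h1, h2]; simp [uc]
  · unfold uc
    rw [if_neg h1, if_neg h2, gv_pow c h, ← pow_add, ← pow_add, I_pow_mod, I_pow_mod (amp l + 3)]
    congr 1
    omega

lemma GP_fix : ∀ g ∈ GP, g *ᵥ vP = vP := by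
  intro g hg
  rw [vP, Matrix.mulVec_smul, GP_fix_u0 g hg]

/-- the stabilizer state -/
noncomputable def psi : Mat 6 := vecMulVec vP (star vP)

lemma psi_stab : IsStab psi := ⟨vP, vP_norm, rfl, GP, GP_stab, GP_fix⟩

lemma E_zero {N : ℕ} {G : Set (Mat N)} (hG : IsStabGroup G) {v : (Fin N → Fin 2) → ℂ}
    (hv : star v ⬝ᵥ v = 1) (hf : ∀ g ∈ G, g *ᵥ v = v) (p : Fin N → Fin 4)
    (h1 : pauliString p ∉ G) (h2 : -pauliString p ∉ G) :
    E (vecMulVec v (star v)) p = 0 := by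
  have hfin : G.Finite := by
    apply Set.finite_of_ncard_ne_zero
    rw [hG.card]; positivity
  rw [E, stab_projector hG.signed hG.one_mem hG.mul_mem hG.card hG.neg_one hfin hv hf,
    Matrix.smul_mul, Matrix.trace_smul, Finset.sum_mul, Matrix.trace_sum, Finset.sum_eq_zero,
    smul_zero]
  intro g hg
  rw [Set.Finite.mem_toFinset] at hg
  obtain ⟨q, hq⟩ := hG.signed g hg
  have hne : q ≠ p := by
    rintro rfl
    rcases hq with hq | hq
    · exact h1 (hq ▸ hg)
    · exact h2 (hq ▸ hg)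
  rcases hq with hq | hq
  · rw [hq, pauliString_trace_mul, if_neg hne]
  · rw [hq, neg_mul, Matrix.trace_neg, pauliString_trace_mul, if_neg hne, neg_zero]

lemma E_psi {c : ℕ} (hc : c < 4096) : E psi (decp c) = ((gv c : ℤ) : ℂ) := by
  rcases gv_cases c with h | h | h
  · have hm : pauliString (decp c) ∈ GP := ⟨c, hc, by rw [h]; norm_num, by rw [h]; simp⟩
    rw [psi, E_pure, GP_fix _ hm, vP_norm, h]; simp
  · have hm : -pauliString (decp c) ∈ GP := ⟨c, hc, by rw [h]; norm_num, by rw [h]; simp⟩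
    have h3 := GP_fix _ hm
    rw [Matrix.neg_mulVec] at h3
    have h4 : pauliString (decp c) *ᵥ vP = -vP := by rw [← neg_eq_iff_eq_neg, h3]
    rw [psi, E_pure, h4, dotProduct_neg, vP_norm, h]; simp
  · have key : ∀ a : ℂ, a ≠ 0 → a • pauliString (decp c) ∉ GP := by
      rintro a ha ⟨d, hd, h', he⟩
      have h2 := decp_inj hc hd (signed_inj ha (cast_ne h') he).1
      subst h2
      exact h' h
    rw [psi, E_zero GP_stab vP_norm GP_fix, h]
    · simp
    · have := key 1 one_ne_zero; rwa [one_smul] at this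
    · have := key (-1) (by norm_num); rwa [neg_one_smul] at this

end Pool.Agent.R993.UC
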