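import Pool.Agent.R993.UC.Bridge

/-!
# The stabilizer state
-/

namespace Pool.Agent.R993.UC

open Matrix Complex Finset
open scoped ComplexOrder

/-- the codes of the 64 strings of the stabilizer group -/
def gl : List ℕ := [0, 114, 187, 201, 297, 347, 402, 480, 574, 588, 645, 759, 791, 869, 940, 990, 1038, 1148, 1205, 1223, 1319, 1365, 1436, 1518, 1584, 1602, 1675, 1785, 1817, 1899, 1954, 2000, 2095, 2141, 2196, 2278, 2310, 2420, 2493, 2511, 2577, 2659, 2730, 2776, 2872, 2890, 2947, 3057, 3105, 3155, 3226, 3304, 3336, 3450, 3507, 3521, 3615, 3693, 3748, 3798, 3894, 3908, 3981, 4095]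

set_option maxRecDepth 100000 in
lemma chk_gl : allB (fun c => gd c == 0 || gl.contains c) 12 0 = true := by decide +kernel

set_option maxRecDepth 100000 in
lemma chk_gl2 : gl.all (fun c => decide (c < 4096) && decide (gv c ≠ 0)) = true := by
  decide +kernel

lemma gl_nodup : gl.Nodup := by decide +kernel

set_option maxRecDepth 100000 in
lemma chk_mul : gl.all (fun c => gl.all (fun d =>
    (phs c d % 4 == 0 && gv (c ^^^ d) == gv c * gv d) ||
    (phs c d % 4 == 2 && gv (c ^^^ d) == -(gv c * gv d)))) = true := by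
  decide +kernel

set_option maxRecDepth 100000 in
lemma chk_fix : gl.all (fun c => allB (fun k =>
    (amp k == 0 && amp (k ^^^ fm c) == 0) ||
    (amp k != 0 && amp (k ^^^ fm c) != 0 &&
      (amp k + kp c k + (if gv c = -1 then 2 else 0)) % 4 == amp (k ^^^ fm c) % 4)) 6 0) = true := by
  decide +kernel

/-- number of nonzero amplitudes -/
lemma chk_norm : sumB (fun k => if amp k = 0 then 0 else 1) 6 0 = 32 := by decide +kernel

end Pool.Agent.R993.UC
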