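import Pool.Agent.R993.UC.Psi

/-!
# A second pure state with the same uniform data
-/

namespace Pool.Agent.R993.UC

open Matrix Complex Finset
open scoped ComplexOrder

set_option maxRecDepth 100000 in
lemma chk_mm : allB (fun c => decide (mm c = 0) || (L3.map (fun x => x.1)).contains c) 12 0 = true := by
  decide +kernel

lemma L3_nodup : (L3.map (fun x => x.1)).Nodup := by decide +kernel

lemma L3_lt : (L3.map (fun x => x.1)).all (fun c => decide (c < 4096)) = true := by decide +kernel

lemma chk_qamp : allB (fun k => !(qb k) || amp k != 0) 6 0 = true := by decide +kernel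

lemma q_filter : (range 64).filter (fun k => qb k = true) = {11, 13, 26, 28, 35, 37, 50, 52} := by
  decide +kernel

/-- The differences of the data sum to zero over each type. -/
lemma mm_type_sum (K : ℕ) : ∑ c ∈ range 4096, (if keyc c = K then mm c else 0) = 0 := by
  have hsub : (L3.map (fun x => x.1)).toFinset ⊆ range 4096 := by
    intro c hc
    have := List.all_eq_true.1 L3_lt c (List.mem_toFinset.1 hc)
    simpa using this
  rw [← Finset.sum_subset hsub, List.sum_toFinset _ L3_nodup, List.map_map]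
  · have h1 : L3.map ((fun c => if keyc c = K then mm c else 0) ∘ fun x => x.1) =
        L3.map (fun x => if x.2.1 = K then x.2.2 else 0) := by
      apply List.map_congr_left
      intro x hx
      have h := List.all_eq_true.1 chk_L3 x hx
      simp only [Bool.and_eq_true, decide_eq_true_eq] at h
      show (if keyc x.1 = K then mm x.1 else 0) = _
      rw [h.1.1, h.1.2]
    rw [h1]
    by_cases hK : K ∈ Ks
    · have h := List.all_eq_true.1 chk_Ks K hK
      simpa using h
    · apply List.sum_eq_zero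
      intro z hz
      obtain ⟨x, hx, rfl⟩ := List.mem_map.1 hz
      have h := List.all_eq_true.1 chk_L3 x hx
      simp only [Bool.and_eq_true, decide_eq_true_eq, List.contains_iff_mem] at h
      rw [if_neg]
      rintro rfl
      exact hK h.2
  · intro c hc hc2
    have h := allB_spec _ 12 0 chk_mm c (Nat.zero_le _) (by norm_num; exact Finset.mem_range.1 hc)
    simp only [Bool.or_eq_true, decide_eq_true_eq, List.contains_iff_mem] at h
    rcases h with h | h
    · rw [h]; simp
    · exact absurd (List.mem_toFinset.2 h) hc2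

/-! ### The vector -/

/-- the unit complex number `(3 + 4 i) / 5`, minus `1` -/
noncomputable def mu : ℂ := (3 + 4 * I) / 5 - 1

lemma mu_star : star mu = (3 - 4 * I) / 5 - 1 := by
  show (starRingEnd ℂ) mu = _
  simp only [mu, map_sub, map_div₀, map_add, map_mul, Complex.conj_I, map_one, Complex.conj_ofNat]
  ring

lemma mu_rel : mu + star mu + star mu * mu = 0 := by
  rw [mu_star, mu]
  have := I_sq
  linear_combination (-16 / 25 : ℂ) * this

/-- the part of `u0` on `Q` -/
noncomputable def uQ : (Fin 6 → Fin 2) → ℂ :=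
  fun y => if qb (finFunctionFinEquiv y : ℕ) = true then u0 y else 0

/-- the unnormalised second vector -/
noncomputable def w0 : (Fin 6 → Fin 2) → ℂ := u0 + mu • uQ

lemma uQ_decy {k : ℕ} (hk : k < 64) :
    uQ (decy k) = if qb k = true then uc (amp k) else 0 := by
  rw [uQ, code_decy hk, u0_decy hk]

/-- the expansion of a hermitian form at `w0` -/
lemma form_expand (M : Mat 6) (hM : Mᴴ = M) :
    star w0 ⬝ᵥ (M *ᵥ w0) = star u0 ⬝ᵥ (M *ᵥ u0) +
      (mu * (star (u0 - uQ) ⬝ᵥ (M *ᵥ uQ)) + star (mu * (star (u0 - uQ) ⬝ᵥ (M *ᵥ uQ)))) := by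
  have herm : ∀ x y : (Fin 6 → Fin 2) → ℂ, star x ⬝ᵥ (M *ᵥ y) = star (star y ⬝ᵥ (M *ᵥ x)) := by
    intro x y
    rw [← Matrix.star_dotProduct_star, star_star, Matrix.star_mulVec, hM,
      ← Matrix.dotProduct_mulVec]
  set a := star (u0 - uQ) ⬝ᵥ (M *ᵥ uQ) with ha
  set b := star uQ ⬝ᵥ (M *ᵥ uQ) with hb
  have hbs : star b = b := (herm uQ uQ).symm
  have hab : star u0 ⬝ᵥ (M *ᵥ uQ) = a + b := by
    rw [ha, hb, star_sub, sub_dotProduct]; ring
  have hba : star uQ ⬝ᵥ (M *ᵥ u0) = star a + b := by
    rw [herm, hab, star_add, hbs]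
  rw [w0, Matrix.mulVec_add, Matrix.mulVec_smul, star_add, star_smul, add_dotProduct,
    dotProduct_add, dotProduct_add, smul_dotProduct, smul_dotProduct, dotProduct_smul,
    dotProduct_smul, hab, hba, ← hb, star_mul']
  simp only [smul_eq_mul]
  linear_combination b * mu_rel

lemma w0_norm : star w0 ⬝ᵥ w0 = 32 := by
  have h := form_expand 1 (Matrix.conjTranspose_one)
  rw [Matrix.one_mulVec, Matrix.one_mulVec, Matrix.one_mulVec, u0_norm] at h
  have h0 : star (u0 - uQ) ⬝ᵥ uQ = 0 := by
    rw [dotProduct]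
    refine Finset.sum_eq_zero fun y _ => ?_
    rw [Pi.star_apply, Pi.sub_apply, uQ]
    split_ifs <;> simp
  rw [h, h0]; simp

lemma I_pow_cross (a b k : ℕ) :
    star (I ^ (b + 3)) * (I ^ k * I ^ (a + 3)) = (I : ℂ) ^ ((a + 3 * b + k) % 4) := by
  have h3 : -(I : ℂ) = I ^ 3 := by rw [pow_succ, I_sq]; ring
  have : star (I ^ (b + 3)) = (I : ℂ) ^ (3 * (b + 3)) := by
    rw [star_pow]
    have : star I = -I := Complex.conj_I
    rw [this, h3, ← pow_mul]
  rw [this, ← pow_add, ← pow_add, I_pow_mod]
  congr 1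
  omega

/-- the cross term in terms of codes -/
lemma cross_code {c : ℕ} : star (u0 - uQ) ⬝ᵥ (pauliString (decp c) *ᵥ uQ) =
    ∑ k ∈ range 64, (if qb k = true then
      (if qb (k ^^^ fm c) = true ∨ amp (k ^^^ fm c) = 0 then 0 else I ^ nx k c) else 0) := by
  rw [dotProduct, sum_codesy]
  refine Finset.sum_nbij' (fun l => l ^^^ fm c) (fun l => l ^^^ fm c) ?_ ?_ ?_ ?_ ?_
  · intro l hl; exact Finset.mem_range.2 (xor_lt64 (Finset.mem_range.1 hl) (fm_lt c))
  · intro l hl; exact Finset.mem_range.2 (xor_lt64 (Finset.mem_range.1 hl) (fm_lt c))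
  · intro l _; exact xor_xor_self' l (fm c)
  · intro l _; exact xor_xor_self' l (fm c)
  · intro l hl
    have hl := Finset.mem_range.1 hl
    set k := l ^^^ fm c with hk
    have hk64 : k < 64 := xor_lt64 hl (fm_lt c)
    have hlk : l = k ^^^ fm c := (xor_xor_self' l (fm c)).symm
    have h1 : (pauliString (decp c) *ᵥ uQ) (decy l) = I ^ kp c k * uQ (decy k) := by
      conv_lhs => rw [hlk]
      exact mulVec_code c k hk64 uQ
    rw [Pi.star_apply, Pi.sub_apply, h1, u0_decy hl, uQ_decy hl, uQ_decy hk64, ← hlk]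
    by_cases hq : qb k = true
    · rw [if_pos hq, if_pos hq]
      have hak : amp k ≠ 0 := by
        have h := allB_spec _ 6 0 chk_qamp k (Nat.zero_le _) (by norm_num; exact hk64)
        simp only [Bool.or_eq_true, Bool.not_eq_true', bne_iff_ne, ne_eq] at h
        rcases h with h | h
        · rw [hq] at h; exact absurd h (by simp)
        · exact h
      by_cases hql : qb l = true
      · rw [if_pos hql, if_pos (Or.inl hql)]; simp
      · rw [if_neg hql, sub_zero]
        by_cases hal : amp l = 0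
        · rw [if_pos (Or.inr hal), hal]; simp [uc]
        · rw [if_neg (by simp [hql, hal])]
          unfold uc
          rw [if_neg hak, if_neg hal, I_pow_cross]
          unfold nx
          rw [← hlk]
    · rw [if_neg hq, if_neg hq]; simp

lemma mu_om (n : ℕ) (hn : n < 4) :
    mu * I ^ n + star (mu * I ^ n) = -(4 / 5 : ℂ) * ((om n : ℤ) : ℂ) := by
  have hI : star I = -I := Complex.conj_I
  rw [star_mul', star_pow, hI, mu_star, mu]
  have h2 := I_sq
  interval_cases n
  · simp [om]; ring
  · simp [om]; linear_combination (8 / 5 : ℂ) * h2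
  · simp only [om]; norm_num; ring
  · simp only [om]
    norm_num
    have h3 : (I : ℂ) ^ 3 = -I := by rw [pow_succ, I_sq]; ring
    have h4 : (-I : ℂ) ^ 3 = I := by rw [neg_pow, h3]; ring
    rw [h4]
    linear_combination (-8 / 5 : ℂ) * h2

lemma cross_val (c : ℕ) :
    mu * (star (u0 - uQ) ⬝ᵥ (pauliString (decp c) *ᵥ uQ)) +
      star (mu * (star (u0 - uQ) ⬝ᵥ (pauliString (decp c) *ᵥ uQ))) =
    -(4 / 5 : ℂ) * ((mm c : ℤ) : ℂ) := by
  rw [cross_code, ← Finset.sum_filter, q_filter, Finset.mul_sum, star_sum, ← Finset.sum_add_distrib]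
  have h1 : ∀ k, mu * (if qb (k ^^^ fm c) = true ∨ amp (k ^^^ fm c) = 0 then 0 else I ^ nx k c) +
      star (mu * (if qb (k ^^^ fm c) = true ∨ amp (k ^^^ fm c) = 0 then 0 else I ^ nx k c)) =
      -(4 / 5 : ℂ) * ((mt k c : ℤ) : ℂ) := by
    intro k
    unfold mt
    split_ifs with h
    · simp
    · exact mu_om _ (Nat.mod_lt _ (by norm_num))
  rw [Finset.sum_congr rfl fun k _ => h1 k, ← Finset.mul_sum]
  congr 1
  rw [← Int.cast_sum]
  congr 1
  rw [mm]
  simp only [Finset.sum_insert, Finset.mem_insert, Finset.mem_singleton, Finset.sum_singleton,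
    Nat.reduceEqDiff, or_self, not_false_eq_true]
  ring

/-- the second vector -/
noncomputable def wv : (Fin 6 → Fin 2) → ℂ := rr • w0

lemma wv_norm : star wv ⬝ᵥ wv = 1 := by
  rw [wv, star_smul, smul_dotProduct, dotProduct_smul, w0_norm, rr_star, smul_eq_mul, smul_eq_mul,
    ← mul_assoc, rr_sq]
  norm_num

/-- the second state -/
noncomputable def sigma : Mat 6 := vecMulVec wv (star wv)

lemma E_scaled (u : (Fin 6 → Fin 2) → ℂ) (p : Fin 6 → Fin 4) :
    E (vecMulVec (rr • u) (star (rr • u))) p = (1 / 32) * (star u ⬝ᵥ (pauliString p *ᵥ u)) := by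
  rw [E_pure, Matrix.mulVec_smul, star_smul, smul_dotProduct, dotProduct_smul, rr_star,
    smul_eq_mul, smul_eq_mul, ← mul_assoc, rr_sq]

lemma E_diff (c : ℕ) : E sigma (decp c) = E psi (decp c) - (1 / 40) * ((mm c : ℤ) : ℂ) := by
  rw [sigma, psi, wv, vP, E_scaled, E_scaled, form_expand _ (pauliString_conj _), cross_val]
  ring

theorem sigma_data : SameData sigma psi := by
  apply key_data
  intro p0
  rw [Finset.sum_filter, Finset.sum_filter, sum_codes, sum_codes]
  have h1 : ∀ c ∈ range 4096, (if keyF (decp c) = keyF p0 then E sigma (decp c) else 0) =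
      (if keyF (decp c) = keyF p0 then E psi (decp c) else 0) -
        (1 / 40) * (((if keyc c = keyF p0 then mm c else 0 : ℤ)) : ℂ) := by
    intro c _
    rw [keyF_decp]
    split_ifs with h
    · rw [E_diff]
    · simp
  rw [Finset.sum_congr rfl h1, Finset.sum_sub_distrib, ← Finset.mul_sum, ← Int.cast_sum,
    mm_type_sum]
  simp

theorem sigma_ne : sigma ≠ psi := by
  intro h
  have h1 := E_diff L3.head!.1
  rw [h] at h1
  have h2 : mm L3.head!.1 ≠ 0 := by decide +kernel
  have h3 : (1 / 40 : ℂ) * ((mm L3.head!.1 : ℤ) : ℂ) = 0 := by linear_combination h1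
  rcases mul_eq_zero.1 h3 with h4 | h4
  · norm_num at h4
  · exact h2 (by exact_mod_cast h4)

theorem sigma_pure : IsPure sigma := ⟨wv, wv_norm, rfl⟩

theorem sigma_density : IsDensity sigma := by
  refine ⟨Matrix.posSemidef_vecMulVec_self_star wv, ?_⟩
  rw [sigma, Matrix.trace_vecMulVec, dotProduct_comm, wv_norm]

end Pool.Agent.R993.UC
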