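import Pool.Agent.R993.UC.Defs

/-!
# Stabilizer states: projector identity and expectation values
-/

namespace Pool.Agent.R993.UC

open Matrix Complex Finset
open scoped ComplexOrder

variable {N : ℕ}

abbrev Mat (N : ℕ) := Matrix (Fin N → Fin 2) (Fin N → Fin 2) ℂ

lemma signed_sq {g : Mat N} (h : IsSignedPauli g) : g * g = 1 := by
  obtain ⟨p, rfl | rfl⟩ := h
  · exact pauliString_sq p
  · rw [neg_mul_neg]; exact pauliString_sq p

lemma signed_conj {g : Mat N} (h : IsSignedPauli g) : gᴴ = g := by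
  obtain ⟨p, rfl | rfl⟩ := h
  · exact pauliString_conj p
  · rw [Matrix.conjTranspose_neg, pauliString_conj]

lemma stab_projector {G : Set (Mat N)} (hs : ∀ g ∈ G, IsSignedPauli g) (h1 : 1 ∈ G)
    (hm : ∀ g ∈ G, ∀ h ∈ G, g * h ∈ G) (hc : G.ncard = 2 ^ N) (hn : -1 ∉ G)
    (hfin : G.Finite) {v : (Fin N → Fin 2) → ℂ} (hv : star v ⬝ᵥ v = 1)
    (hf : ∀ g ∈ G, g *ᵥ v = v) :
    vecMulVec v (star v) = ((2 : ℂ) ^ N)⁻¹ • ∑ g ∈ hfin.toFinset, g := by
  classical
  set S := hfin.toFinset with hS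
  have hmem : ∀ g, g ∈ S ↔ g ∈ G := fun g => hfin.mem_toFinset
  have hcard : S.card = 2 ^ N := by rw [← hc, Set.ncard_eq_toFinset_card G hfin]
  set Pr : Mat N := ∑ g ∈ S, g with hPr
  have h2N : ((2 : ℂ) ^ N) ≠ 0 := pow_ne_zero _ two_ne_zero
  have hleft : ∀ h ∈ S, h * Pr = Pr := by
    intro h hh
    rw [hPr, Finset.mul_sum]
    have hhG := (hmem h).1 hh
    have hsq := signed_sq (hs h hhG)
    refine Finset.sum_nbij' (fun g => h * g) (fun g => h * g) ?_ ?_ ?_ ?_ ?_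
    · intro g hg; exact (hmem _).2 (hm h hhG g ((hmem g).1 hg))
    · intro g hg; exact (hmem _).2 (hm h hhG g ((hmem g).1 hg))
    · intro g _; show h * (h * g) = g; rw [← mul_assoc, hsq, one_mul]
    · intro g _; show h * (h * g) = g; rw [← mul_assoc, hsq, one_mul]
    · intro g _; rfl
  have hPP : Pr * Pr = (2 : ℂ) ^ N • Pr := by
    conv_lhs => rw [hPr, Finset.sum_mul]
    rw [← hPr, Finset.sum_congr rfl hleft, Finset.sum_const, hcard]
    rw [← Nat.cast_smul_eq_nsmul ℂ]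
    norm_num
  have hPH : Prᴴ = Pr := by
    rw [hPr, Matrix.conjTranspose_sum]
    exact Finset.sum_congr rfl fun g hg => signed_conj (hs g ((hmem g).1 hg))
  have htr : Pr.trace = (2 : ℂ) ^ N := by
    rw [hPr, Matrix.trace_sum, Finset.sum_eq_single (1 : Mat N)]
    · rw [Matrix.trace_one]; simp
    · intro g hg hg1
      obtain ⟨p, hp⟩ := hs g ((hmem g).1 hg)
      have hp0 : p ≠ fun _ => 0 := by
        intro h0
        rw [h0, pauliString_zero] at hp
        rcases hp with hp | hp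
        · exact hg1 hp
        · exact hn (hp ▸ (hmem g).1 hg)
      rcases hp with hp | hp
      · rw [hp, pauliString_trace, if_neg hp0]
      · rw [hp, Matrix.trace_neg, pauliString_trace, if_neg hp0, neg_zero]
    · intro h; exact absurd ((hmem 1).2 h1) h
  have hPv : Pr *ᵥ v = (2 : ℂ) ^ N • v := by
    rw [hPr, Matrix.sum_mulVec]
    rw [Finset.sum_congr rfl fun g hg => hf g ((hmem g).1 hg), Finset.sum_const, hcard]
    rw [← Nat.cast_smul_eq_nsmul ℂ]
    norm_num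
  set A : Mat N := ((2 : ℂ) ^ N)⁻¹ • Pr with hA
  set V : Mat N := vecMulVec v (star v) with hV
  have hAA : A * A = A := by
    rw [hA, Matrix.smul_mul, Matrix.mul_smul, hPP, smul_smul, smul_smul]
    congr 1
    field_simp
  have hAH : Aᴴ = A := by
    rw [hA, Matrix.conjTranspose_smul, hPH]
    congr 1
    simp
  have hAt : A.trace = 1 := by
    rw [hA, Matrix.trace_smul, htr, smul_eq_mul, inv_mul_cancel₀ h2N]
  have hAv : A *ᵥ v = v := by
    rw [hA, Matrix.smul_mulVec, hPv, smul_smul, inv_mul_cancel₀ h2N, one_smul]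
  have hAV : A * V = V := by
    rw [hV, Matrix.mul_vecMulVec, hAv]
  have hVH : Vᴴ = V := by
    rw [hV]
    ext x y
    simp [Matrix.conjTranspose_apply, Matrix.vecMulVec_apply, mul_comm]
  have hVA : V * A = V := by
    have h := congrArg Matrix.conjTranspose hAV
    rwa [Matrix.conjTranspose_mul, hAH, hVH] at h
  have hVV : V * V = V := by
    rw [hV, Matrix.vecMulVec_mul_vecMulVec, hv]
    simp
  have hVt : V.trace = 1 := by
    rw [hV, Matrix.trace_vecMulVec, dotProduct_comm, hv]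
  have hQ : ((A - V)ᴴ * (A - V)).trace = 0 := by
    rw [Matrix.conjTranspose_sub, hAH, hVH, Matrix.sub_mul, Matrix.mul_sub, Matrix.mul_sub, hAA, hAV,
      hVA, hVV, sub_self, sub_zero, Matrix.trace_sub, hAt, hVt, sub_self]
  have := Matrix.trace_conjTranspose_mul_self_eq_zero_iff.1 hQ
  exact (sub_eq_zero.1 this).symm

/-- expectation values -/
noncomputable def E (ρ : Mat N) (p : Fin N → Fin 4) : ℂ := (ρ * pauliString p).trace

lemma E_pure (v : (Fin N → Fin 2) → ℂ) (p : Fin N → Fin 4) :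
    E (vecMulVec v (star v)) p = star v ⬝ᵥ (pauliString p *ᵥ v) := by
  rw [E, Matrix.vecMulVec_mul, Matrix.trace_vecMulVec, dotProduct_comm, ← Matrix.dotProduct_mulVec]

/-- sign -/
def sg (s : Bool) : ℂ := if s then -1 else 1

/-- `sg s • P_p` fixes `v`. -/
def Fx (v : (Fin N → Fin 2) → ℂ) (s : Bool) (p : Fin N → Fin 4) : Prop :=
  pauliString p *ᵥ v = sg s • v

lemma sg_sq (s : Bool) : sg s * sg s = 1 := by cases s <;> simp [sg]

lemma E_cases {G : Set (Mat N)} (hG : IsStabGroup G) {v : (Fin N → Fin 2) → ℂ}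
    (hv : star v ⬝ᵥ v = 1) (hf : ∀ g ∈ G, g *ᵥ v = v) (p : Fin N → Fin 4) :
    (E (vecMulVec v (star v)) p = 1 ∧ Fx v false p) ∨
    (E (vecMulVec v (star v)) p = -1 ∧ Fx v true p) ∨ E (vecMulVec v (star v)) p = 0 := by
  by_cases h1 : pauliString p ∈ G
  · left
    have := hf _ h1
    refine ⟨by rw [E_pure, this, hv], ?_⟩
    rw [Fx, this]; simp [sg]
  by_cases h2 : -pauliString p ∈ G
  · right; left
    have h3 := hf _ h2
    rw [Matrix.neg_mulVec] at h3
    have h4 : pauliString p *ᵥ v = -v := by rw [← h3, neg_neg, h3]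
    refine ⟨by rw [E_pure, h4, dotProduct_neg, hv], ?_⟩
    rw [Fx, h4]; simp [sg]
  right; right
  have hfin : G.Finite := by
    apply Set.finite_of_ncard_ne_zero
    rw [hG.card]; positivity
  rw [E, stab_projector hG.signed hG.one_mem hG.mul_mem hG.card hG.neg_one hfin hv hf,
    Matrix.smul_mul, Matrix.trace_smul, Finset.sum_mul, Matrix.trace_sum, Finset.sum_eq_zero,
    smul_zero]
  intro g hg
  rw [Set.Finite.mem_toFinset] at hg
  obtain ⟨q, hq⟩ := hG.signed g hg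
  have hne : q ≠ p := by
    rintro rfl
    rcases hq with hq | hq
    · exact h1 (hq ▸ hg)
    · exact h2 (hq ▸ hg)
  rcases hq with hq | hq
  · rw [hq, pauliString_trace_mul, if_neg hne]
  · rw [hq, neg_mul, Matrix.trace_neg, pauliString_trace_mul, if_neg hne, neg_zero]

lemma ne_zero_of_norm {v : (Fin N → Fin 2) → ℂ} (hv : star v ⬝ᵥ v = 1) : v ≠ 0 := by
  rintro rfl; simp at hv

lemma eigen_sq {v : (Fin N → Fin 2) → ℂ} (hv : star v ⬝ᵥ v = 1) {p : Fin N → Fin 4} {c : ℂ}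
    (h : pauliString p *ᵥ v = c • v) : c * c = 1 := by
  have h1 : pauliString p *ᵥ (pauliString p *ᵥ v) = v := by
    rw [Matrix.mulVec_mulVec, pauliString_sq, Matrix.one_mulVec]
  rw [h, Matrix.mulVec_smul, h, smul_smul] at h1
  have h2 := congrArg (fun w => star v ⬝ᵥ w) h1
  simp only [dotProduct_smul, hv, smul_eq_mul, mul_one] at h2
  exact h2

lemma Fx_not_both {v : (Fin N → Fin 2) → ℂ} (hv : star v ⬝ᵥ v = 1) {p : Fin N → Fin 4}
    (h1 : Fx v true p) (h2 : Fx v false p) : False := by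
  rw [Fx] at h1 h2
  rw [h1] at h2
  have h3 := congrArg (fun w => star v ⬝ᵥ w) h2
  simp only [dotProduct_smul, hv, smul_eq_mul, mul_one, sg] at h3
  norm_num at h3

lemma Fx_mul_aux {v : (Fin N → Fin 2) → ℂ} {s t : Bool} {p q : Fin N → Fin 4}
    (h1 : Fx v s p) (h2 : Fx v t q) :
    (I ^ (∑ j, phi (p j) (q j))) • (pauliString (fun j => xo (p j) (q j)) *ᵥ v) =
      (sg s * sg t) • v := by
  rw [← Matrix.smul_mulVec, ← pauliString_mul, ← Matrix.mulVec_mulVec, h2, Matrix.mulVec_smul, h1,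
    smul_smul, mul_comm]

lemma I_pow_mod (n : ℕ) : (I : ℂ) ^ n = I ^ (n % 4) := by
  conv_lhs => rw [← Nat.div_add_mod n 4, pow_add, pow_mul, I_pow_four, one_pow, one_mul]

lemma Fx_mul_even {v : (Fin N → Fin 2) → ℂ} {s t : Bool} {p q : Fin N → Fin 4}
    (h1 : Fx v s p) (h2 : Fx v t q) (h : (∑ j, phi (p j) (q j)) % 4 = 0) :
    Fx v (xor s t) (fun j => xo (p j) (q j)) := by
  have h3 := Fx_mul_aux h1 h2
  rw [I_pow_mod, h, pow_zero, one_smul] at h3
  rw [Fx, h3]
  congr 1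
  cases s <;> cases t <;> simp [sg]

lemma Fx_mul_odd {v : (Fin N → Fin 2) → ℂ} {s t : Bool} {p q : Fin N → Fin 4}
    (h1 : Fx v s p) (h2 : Fx v t q) (h : (∑ j, phi (p j) (q j)) % 4 = 2) :
    Fx v (!(xor s t)) (fun j => xo (p j) (q j)) := by
  have h3 := Fx_mul_aux h1 h2
  rw [I_pow_mod, h, I_sq, neg_one_smul] at h3
  rw [Fx, ← neg_neg (pauliString _ *ᵥ v), h3, ← neg_smul]
  congr 1
  cases s <;> cases t <;> simp [sg]

lemma Fx_anti {v : (Fin N → Fin 2) → ℂ} (hv : star v ⬝ᵥ v = 1) {s t : Bool}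
    {p q : Fin N → Fin 4} (h1 : Fx v s p) (h2 : Fx v t q)
    (h : (∑ j, phi (p j) (q j)) % 2 = 1) : False := by
  have h3 := Fx_mul_aux h1 h2
  set n := ∑ j, phi (p j) (q j) with hn
  have hI : (I : ℂ) ^ n ≠ 0 := pow_ne_zero _ I_ne_zero
  have h4 : pauliString (fun j => xo (p j) (q j)) *ᵥ v = ((I ^ n)⁻¹ * (sg s * sg t)) • v := by
    rw [← smul_smul, ← h3, smul_smul, inv_mul_cancel₀ hI, one_smul]
  have h5 := eigen_sq hv h4
  have h6 : ((I : ℂ) ^ n)⁻¹ * (I ^ n)⁻¹ = -1 := by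
    rw [← mul_inv, ← pow_add]
    have : (n + n) % 4 = 2 := by omega
    rw [I_pow_mod, this, I_sq]; norm_num
  have h7 : (sg s * sg t) * (sg s * sg t) = 1 := by
    cases s <;> cases t <;> simp [sg]
  have h8 : ((I : ℂ) ^ n)⁻¹ * (sg s * sg t) * ((I ^ n)⁻¹ * (sg s * sg t)) = -1 := by
    calc _ = ((I : ℂ) ^ n)⁻¹ * (I ^ n)⁻¹ * ((sg s * sg t) * (sg s * sg t)) := by ring
      _ = -1 := by rw [h6, h7, mul_one]
  rw [h8] at h5
  norm_num at h5

end Pool.Agent.R993.UC
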