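import Pool.Agent.R993.UC.Uniq0

/-!
# Uniqueness among stabilizer states
-/

namespace Pool.Agent.R993.UC

open Matrix Complex Finset
open scoped ComplexOrder

lemma ty_mem {e : ℕ × List ℕ} (he : e ∈ TY) {c : ℕ} (hc : c < 4096) (hk : keyc c = e.1) :
    c ∈ e.2 := by
  have h := allB_spec _ 12 0 chk_TY c (Nat.zero_le _) (by norm_num; exact hc)
  simp only [force_eq] at h
  have h2 := List.all_eq_true.1 h e he
  simp only [Bool.or_eq_true, bne_iff_ne, ne_eq, List.contains_iff_mem] at h2
  rcases h2 with h2 | h2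
  · exact absurd hk h2
  · exact h2

lemma ty_lt {e : ℕ × List ℕ} (he : e ∈ TY) {c : ℕ} (hc : c ∈ e.2) : c < 4096 ∧ keyc c = e.1 := by
  have h := List.all_eq_true.1 chk_TY2 e he
  simp only [Bool.and_eq_true, decide_eq_true_eq] at h
  have h2 := List.all_eq_true.1 h.1 c hc
  simp only [Bool.and_eq_true, decide_eq_true_eq, beq_iff_eq] at h2
  exact h2

lemma ty_nodup {e : ℕ × List ℕ} (he : e ∈ TY) : e.2.Nodup := by
  have h := List.all_eq_true.1 chk_TY2 e he
  simp only [Bool.and_eq_true, decide_eq_true_eq] at h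
  exact h.2

/-- sums over a type, in terms of codes -/
lemma type_sum {e : ℕ × List ℕ} (he : e ∈ TY) (ρ : Mat 6) :
    ∑ p with keyF p = e.1, E ρ p = ∑ c ∈ e.2.toFinset, E ρ (decp c) := by
  rw [Finset.sum_filter, sum_codes]
  have h1 : ∀ c ∈ range 4096, (if keyF (decp c) = e.1 then E ρ (decp c) else 0) =
      if c ∈ e.2.toFinset then E ρ (decp c) else 0 := by
    intro c hc
    rw [keyF_decp]
    congr 1
    apply propext
    rw [List.mem_toFinset]
    exact ⟨fun h => ty_mem he (Finset.mem_range.1 hc) h, fun h => (ty_lt he h).2⟩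
  rw [Finset.sum_congr rfl h1, Finset.sum_ite_mem, Finset.inter_eq_right.2]
  intro c hc
  exact Finset.mem_range.2 (ty_lt he (List.mem_toFinset.1 hc)).1

lemma psi_type_sum {e : ℕ × List ℕ} (he : e ∈ TY) :
    ∑ p with keyF p = e.1, E psi p = (((e.2.map gv).sum : ℤ) : ℂ) := by
  rw [type_sum he, ← List.sum_toFinset gv (ty_nodup he)]
  push_cast
  exact Finset.sum_congr rfl fun c hc => E_psi (ty_lt he (List.mem_toFinset.1 hc)).1

section
variable {v : (Fin 6 → Fin 2) → ℂ}

/-- all elements of `Γ` fix `v` -/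
def Inv (v : (Fin 6 → Fin 2) → ℂ) (Γ : List (ℕ × Bool)) : Prop := ∀ g ∈ Γ, Fx v g.2 (decp g.1)

lemma inv_ext (hv : star v ⬝ᵥ v = 1) {Γ : List (ℕ × Bool)} {c : ℕ} {s : Bool} (hI : Inv v Γ)
    (hc : Fx v s (decp c)) : Inv v (ext Γ c s) := by
  intro g hg
  rw [ext, List.mem_append] at hg
  rcases hg with hg | hg
  · exact hI g hg
  · obtain ⟨g0, hg0, rfl⟩ := List.mem_map.1 hg
    have h1 := hI g0 hg0
    show Fx v _ (decp (g0.1 ^^^ c))
    rw [decp_xor]
    have hph := phs_eq g0.1 c
    rcases (by omega : phs g0.1 c % 4 = 0 ∨ phs g0.1 c % 4 = 2 ∨ phs g0.1 c % 2 = 1) with h | h | h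
    · have hb : (phs g0.1 c % 4 == 2) = false := by rw [h]; rfl
      simp only [hb, cond_false]
      exact Fx_mul_even h1 hc (by rw [hph]; exact h)
    · have hb : (phs g0.1 c % 4 == 2) = true := by rw [h]; rfl
      simp only [hb, cond_true]
      exact Fx_mul_odd h1 hc (by rw [hph]; exact h)
    · exact absurd (Fx_anti hv h1 hc (by rw [hph]; exact h)) id

lemma inv_ext' (hv : star v ⬝ᵥ v = 1) {Γ Γ' : List (ℕ × Bool)} {c : ℕ} {s : Bool}
    (hI : Inv v Γ) (hc : Fx v s (decp c)) (h : (ext Γ c s == Γ') = true) : Inv v Γ' := by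
  rw [← beq_iff_eq.1 h]; exact inv_ext hv hI hc

lemma step {G : Set (Mat 6)} (hG : IsStabGroup G) (hv : star v ⬝ᵥ v = 1)
    (hf : ∀ g ∈ G, g *ᵥ v = v) (hd : SameData (vecMulVec v (star v)) psi)
    {Γ : List (ℕ × Bool)} (hI : Inv v Γ) {e : ℕ × List ℕ} (he : e ∈ TY) (he0 : e.1 ≠ 0)
    {s : Bool} {kids : List ℕ}
    (hchk : chk Γ e.2 s kids = true) : ∃ c ∈ kids, Fx v s (decp c) := by
  rw [chk, Bool.and_eq_true] at hchk
  obtain ⟨hs, hall⟩ := hchk
  -- a member of the type with the right sign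
  have hne : (e.2.map gv).sum ≠ 0 := by
    cases s <;> simp only [cond_true, cond_false, decide_eq_true_eq] at hs <;> omega
  have hmem : e.2 ≠ [] := by rintro h; rw [h] at hne; exact hne rfl
  obtain ⟨c0, hc0⟩ := List.exists_mem_of_ne_nil _ hmem
  have hsum : ∑ c ∈ e.2.toFinset, E (vecMulVec v (star v)) (decp c) =
      (((e.2.map gv).sum : ℤ) : ℂ) := by
    rw [← psi_type_sum he, ← type_sum he]
    have hk : keyF (decp c0) = e.1 := by rw [keyF_decp]; exact (ty_lt he hc0).2
    rw [← hk]
    refine data_key hd (decp c0) ?_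
    intro h0
    rw [h0] at hk
    apply he0
    rw [← hk, ← decp_zero, keyF_decp]
    decide +kernel
  have hex : ∃ c ∈ e.2, Fx v s (decp c) := by
    by_contra hno
    push Not at hno
    have hre := congrArg Complex.re hsum
    rw [Complex.re_sum, Complex.intCast_re] at hre
    cases s with
    | true =>
      simp only [cond_true, decide_eq_true_eq] at hs
      have h0 : 0 ≤ ∑ c ∈ e.2.toFinset, (E (vecMulVec v (star v)) (decp c)).re := by
        refine Finset.sum_nonneg fun c hc => ?_
        have hc' := hno c (List.mem_toFinset.1 hc)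
        rcases E_cases hG hv hf (decp c) with h | h | h
        · rw [h.1]; simp
        · exact absurd h.2 hc'
        · rw [h]; simp
      rw [hre] at h0
      have : (((e.2.map gv).sum : ℤ) : ℝ) < 0 := by exact_mod_cast hs
      linarith
    | false =>
      simp only [cond_false, decide_eq_true_eq] at hs
      have h0 : ∑ c ∈ e.2.toFinset, (E (vecMulVec v (star v)) (decp c)).re ≤ 0 := by
        refine Finset.sum_nonpos fun c hc => ?_
        have hc' := hno c (List.mem_toFinset.1 hc)
        rcases E_cases hG hv hf (decp c) with h | h | h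
        · exact absurd h.2 hc'
        · rw [h.1]; simp
        · rw [h]; simp
      rw [hre] at h0
      have : (0 : ℝ) < (((e.2.map gv).sum : ℤ) : ℝ) := by exact_mod_cast hs
      linarith
  obtain ⟨c, hc, hFx⟩ := hex
  have h1 := List.all_eq_true.1 hall c hc
  rw [Bool.or_eq_true, List.any_eq_true, List.contains_iff_mem] at h1
  rcases h1 with ⟨g, hg, h2⟩ | h1
  · rw [Bool.or_eq_true, Bool.and_eq_true, beq_iff_eq, beq_iff_eq, bne_iff_ne] at h2
    have h3 := hI g hg
    rcases h2 with h2 | ⟨h2, h4⟩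
    · exact absurd (Fx_anti hv hFx h3 (by rw [phs_eq]; exact h2)) id
    · rw [h2] at h3
      exfalso
      cases s <;> cases hg2 : g.2 <;> rw [hg2] at h3 h4
      · exact h4 rfl
      · exact Fx_not_both hv h3 hFx
      · exact Fx_not_both hv hFx h3
      · exact h4 rfl
  · exact ⟨c, h1, hFx⟩

lemma inv_A0 : Inv v A0 := by
  intro g hg
  simp only [A0, List.mem_singleton] at hg
  subst hg
  show pauliString (decp 0) *ᵥ v = sg false • v
  rw [decp_zero, pauliString_zero, Matrix.one_mulVec]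
  simp [sg]

lemma no_kids {s : Bool} (h : ∃ c ∈ ([] : List ℕ), Fx v s (decp c)) : False := by
  obtain ⟨c, hc, _⟩ := h
  exact absurd hc (by simp)

/-- The search: all 64 signed strings of the stabilizer group of `psi` fix `v`. -/
lemma search {G : Set (Mat 6)} (hG : IsStabGroup G) (hv : star v ⬝ᵥ v = 1)
    (hf : ∀ g ∈ G, g *ᵥ v = v) (hd : SameData (vecMulVec v (star v)) psi) : Inv v A6_791 := by
  have st := fun (Γ : List (ℕ × Bool)) (hI : Inv v Γ) (e : ℕ × List ℕ) (he : e ∈ TY)
    (he0 : e.1 ≠ 0) (s : Bool) (kids : List ℕ) (h : chk Γ e.2 s kids = true) =>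
      step hG hv hf hd hI he he0 h
  have one : ∀ {s : Bool} {c : ℕ}, (∃ d ∈ [c], Fx v s (decp d)) → Fx v s (decp c) := by
    rintro s c ⟨d, hd, h⟩
    rw [List.mem_singleton] at hd
    subst hd; exact h
  have k1 := one (st A0 inv_A0 (447, M447) (by simp [TY]) (by norm_num) _ _ chk_A0)
  have i1 : Inv v A1 := inv_ext' hv inv_A0 k1 ext_A1
  have k2 := one (st A1 i1 (63, M63) (by simp [TY]) (by norm_num) _ _ chk_A1)
  have i2 : Inv v A2 := inv_ext' hv i1 k2 ext_A2
  obtain ⟨c, hc, k3⟩ := st A2 i2 (587, M587) (by simp [TY]) (by norm_num) _ _ chk_A2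
  simp only [List.mem_cons, List.not_mem_nil, or_false] at hc
  rcases hc with rfl | rfl | rfl | rfl | rfl | rfl
  · exact (no_kids (st A3_198 (inv_ext' hv i2 k3 ext_A3_198) (1078, M1078) (by simp [TY])
      (by norm_num) _ _ chk_A3_198)).elim
  · have i3 : Inv v A3_201 := inv_ext' hv i2 k3 ext_A3_201
    obtain ⟨c, hc, k4⟩ := st A3_201 i3 (1039, M1039) (by simp [TY]) (by norm_num) _ _ chk_A3_201
    simp only [List.mem_cons, List.not_mem_nil, or_false] at hc
    rcases hc with rfl | rfl
    · exact (no_kids (st A4_238 (inv_ext' hv i3 k4 ext_A4_238) (626, M626) (by simp [TY])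
        (by norm_num) _ _ chk_A4_238)).elim
    · have i4 : Inv v A4_187 := inv_ext' hv i3 k4 ext_A4_187
      have k5 := one (st A4_187 i4 (602, M602) (by simp [TY]) (by norm_num) _ _ chk_A4_187)
      have i5 : Inv v A5_588 := inv_ext' hv i4 k5 ext_A5_588
      have k6 := one (st A5_588 i5 (151, M151) (by simp [TY]) (by norm_num) _ _ chk_A5_588)
      exact inv_ext' hv i5 k6 ext_A6_791
  · have i3 : Inv v A3_78 := inv_ext' hv i2 k3 ext_A3_78
    obtain ⟨c, hc, k4⟩ := st A3_78 i3 (1039, M1039) (by simp [TY]) (by norm_num) _ _ chk_A3_78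
    simp only [List.mem_cons, List.not_mem_nil, or_false] at hc
    rcases hc with rfl | rfl
    · exact (no_kids (st B4_250 (inv_ext' hv i3 k4 ext_B4_250) (626, M626) (by simp [TY])
        (by norm_num) _ _ chk_B4_250)).elim
    · have i4 : Inv v B4_175 := inv_ext' hv i3 k4 ext_B4_175
      have k5 := one (st B4_175 i4 (1179, M1179) (by simp [TY]) (by norm_num) _ _ chk_B4_175)
      have i5 : Inv v B5_390 := inv_ext' hv i4 k5 ext_B5_390
      have k6 := one (st B5_390 i5 (1047, M1047) (by simp [TY]) (by norm_num) _ _ chk_B5_390)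
      exact (no_kids (st B6_574 (inv_ext' hv i5 k6 ext_B6_574) (607, M607) (by simp [TY])
        (by norm_num) _ _ chk_B6_574)).elim
  · exact (no_kids (st A3_141 (inv_ext' hv i2 k3 ext_A3_141) (188, M188) (by simp [TY])
      (by norm_num) _ _ chk_A3_141)).elim
  · exact (no_kids (st A3_75 (inv_ext' hv i2 k3 ext_A3_75) (1205, M1205) (by simp [TY])
      (by norm_num) _ _ chk_A3_75)).elim
  · exact (no_kids (st A3_135 (inv_ext' hv i2 k3 ext_A3_135) (1205, M1205) (by simp [TY])
      (by norm_num) _ _ chk_A3_135)).elim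

lemma GP_fix_of_inv (hI : Inv v A6_791) : ∀ g ∈ GP, g *ᵥ v = v := by
  rintro g ⟨c, hc, h, rfl⟩
  have h1 := List.all_eq_true.1 chk_final c (mem_gl hc h)
  rw [List.contains_iff_mem] at h1
  have h2 := hI _ h1
  have h3 : pauliString (decp c) *ᵥ v = sg (decide (gv c = -1)) • v := h2
  rw [Matrix.smul_mulVec, h3, smul_smul]
  have : ((gv c : ℤ) : ℂ) * sg (decide (gv c = -1)) = 1 := by
    rcases gv_pm h with h4 | h4 <;> rw [h4] <;> simp [sg]
  rw [this, one_smul]

/-- `psi` is uniformly certifiable within the class of stabilizer states. -/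
theorem psi_certifiable : Certifiable {σ | IsStab σ} psi := by
  rintro σ ⟨v, hv, rfl, G, hG, hf⟩ hd
  have hfix := GP_fix_of_inv (search hG hv hf hd)
  have hfin : GP.Finite := by
    apply Set.finite_of_ncard_ne_zero
    rw [GP_card]; norm_num
  rw [stab_projector GP_signed GP_one GP_mul GP_card GP_neg_one hfin hv hfix, psi,
    stab_projector GP_signed GP_one GP_mul GP_card GP_neg_one hfin vP_norm GP_fix]

end

end Pool.Agent.R993.UC
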