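import Pool.Agent.R993.UC.Psi

/-!
# Uniqueness among stabilizer states: the search
-/

namespace Pool.Agent.R993.UC

open Matrix Complex Finset
open scoped ComplexOrder

/-- one branching step: the type with members `mem` has nonzero data of sign `s`, and every string
of this type either anticommutes with an element of `Γ`, or occurs in `Γ` with the opposite sign,
or is in `kids`. -/
def chk (Γ : List (ℕ × Bool)) (mem : List ℕ) (s : Bool) (kids : List ℕ) : Bool :=
  (bif s then decide ((mem.map gv).sum < 0) else decide (0 < (mem.map gv).sum)) &&
  mem.all (fun c => (Γ.any (fun g => phs c g.1 % 2 == 1 || (g.1 == c && g.2 != s))) ||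
    kids.contains c)

/-- extension of a list of signed strings closed under multiplication by a further one -/
def ext (Γ : List (ℕ × Bool)) (c : ℕ) (s : Bool) : List (ℕ × Bool) :=
  Γ ++ Γ.map (fun g => (g.1 ^^^ c, bif phs g.1 c % 4 == 2 then !(xor g.2 s) else xor g.2 s))

def A0 : List (ℕ × Bool) := [(0, false)]

def A1 : List (ℕ × Bool) := [(0, false), (1365, true)]

def A2 : List (ℕ × Bool) := [(0, false), (1365, true), (4095, true), (2730, true)]

def A3_198 : List (ℕ × Bool) := [(0, false), (1365, true), (4095, true), (2730, true), (198, true), (1427, false), (3897, false), (2668, false)]

def A3_201 : List (ℕ × Bool) := [(0, false), (1365, true), (4095, true), (2730, true), (201, true), (1436, false), (3894, false), (2659, false)]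

def A3_78 : List (ℕ × Bool) := [(0, false), (1365, true), (4095, true), (2730, true), (78, true), (1307, false), (4017, false), (2788, false)]

def A3_141 : List (ℕ × Bool) := [(0, false), (1365, true), (4095, true), (2730, true), (141, true), (1496, false), (3954, false), (2599, false)]

def A3_75 : List (ℕ × Bool) := [(0, false), (1365, true), (4095, true), (2730, true), (75, true), (1310, false), (4020, false), (2785, false)]

def A3_135 : List (ℕ × Bool) := [(0, false), (1365, true), (4095, true), (2730, true), (135, true), (1490, false), (3960, false), (2605, false)]

def A4_238 : List (ℕ × Bool) := [(0, false), (1365, true), (4095, true), (2730, true), (201, true), (1436, false), (3894, false), (2659, false), (238, false), (1467, true), (3857, false), (2628, false), (39, false), (1394, true), (4056, true), (2701, true)]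

def A4_187 : List (ℕ × Bool) := [(0, false), (1365, true), (4095, true), (2730, true), (201, true), (1436, false), (3894, false), (2659, false), (187, false), (1518, true), (3908, false), (2577, false), (114, false), (1319, true), (3981, true), (2776, true)]

def A5_588 : List (ℕ × Bool) := [(0, false), (1365, true), (4095, true), (2730, true), (201, true), (1436, false), (3894, false), (2659, false), (187, false), (1518, true), (3908, false), (2577, false), (114, false), (1319, true), (3981, true), (2776, true), (588, false), (1817, true), (3507, true), (2278, true), (645, false), (2000, false), (3450, true), (2095, false), (759, false), (1954, false), (3336, true), (2141, false), (574, false), (1899, true), (3521, false), (2196, false)]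

def A6_791 : List (ℕ × Bool) := [(0, false), (1365, true), (4095, true), (2730, true), (201, true), (1436, false), (3894, false), (2659, false), (187, false), (1518, true), (3908, false), (2577, false), (114, false), (1319, true), (3981, true), (2776, true), (588, false), (1817, true), (3507, true), (2278, true), (645, false), (2000, false), (3450, true), (2095, false), (759, false), (1954, false), (3336, true), (2141, false), (574, false), (1899, true), (3521, false), (2196, false), (791, false), (1602, false), (3304, false), (2493, true), (990, false), (1675, false), (3105, true), (2420, false), (940, false), (1785, true), (3155, false), (2310, false), (869, true), (1584, false), (3226, true), (2511, true), (347, true), (1038, false), (3748, true), (3057, true), (402, false), (1223, false), (3693, true), (2872, false), (480, true), (1205, false), (3615, false), (2890, false), (297, false), (1148, false), (3798, true), (2947, false)]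

def B4_250 : List (ℕ × Bool) := [(0, false), (1365, true), (4095, true), (2730, true), (78, true), (1307, false), (4017, false), (2788, false), (250, false), (1455, true), (3845, false), (2640, false), (180, false), (1505, true), (3915, true), (2590, true)]

def B4_175 : List (ℕ × Bool) := [(0, false), (1365, true), (4095, true), (2730, true), (78, true), (1307, false), (4017, false), (2788, false), (175, false), (1530, true), (3920, false), (2565, false), (225, false), (1460, true), (3870, true), (2635, true)]

def B5_390 : List (ℕ × Bool) := [(0, false), (1365, true), (4095, true), (2730, true), (78, true), (1307, false), (4017, false), (2788, false), (175, false), (1530, true), (3920, false), (2565, false), (225, false), (1460, true), (3870, true), (2635, true), (390, false), (1235, false), (3705, true), (2860, false), (456, false), (1181, true), (3639, true), (2914, true), (297, false), (1148, false), (3798, true), (2947, false), (359, false), (1074, true), (3736, false), (3021, false)]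

def B6_574 : List (ℕ × Bool) := [(0, false), (1365, true), (4095, true), (2730, true), (78, true), (1307, false), (4017, false), (2788, false), (175, false), (1530, true), (3920, false), (2565, false), (225, false), (1460, true), (3870, true), (2635, true), (390, false), (1235, false), (3705, true), (2860, false), (456, false), (1181, true), (3639, true), (2914, true), (297, false), (1148, false), (3798, true), (2947, false), (359, false), (1074, true), (3736, false), (3021, false), (574, false), (1899, true), (3521, false), (2196, false), (624, true), (1829, false), (3471, false), (2266, false), (657, false), (1988, false), (3438, true), (2107, false), (735, true), (1930, true), (3360, false), (2165, true), (952, false), (1773, true), (3143, false), (2322, false), (1014, true), (1699, true), (3081, false), (2396, true), (791, false), (1602, false), (3304, false), (2493, true), (857, false), (1548, true), (3238, false), (2547, false)]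

/-- the strings with key 447 -/
def M447 : List ℕ := [1365]

/-- the strings with key 63 -/
def M63 : List ℕ := [4095]

/-- the strings with key 587 -/
def M587 : List ℕ := [75, 78, 135, 141, 198, 201]

/-- the strings with key 1078 -/
def M1078 : List ℕ := [2620, 2860, 2872, 3628, 3640, 3880]

/-- the strings with key 1039 -/
def M1039 : List ℕ := [175, 187, 190, 235, 238, 250]

/-- the strings with key 626 -/
def M626 : List ℕ := [1548, 1800, 2316, 2820, 3336, 3588]

/-- the strings with key 602 -/
def M602 : List ℕ := [396, 456, 588, 708, 840, 900]

/-- the strings with key 151 -/
def M151 : List ℕ := [287, 311, 317, 791, 797, 821]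

/-- the strings with key 1179 -/
def M1179 : List ℕ := [330, 390, 393, 582, 585, 645]

/-- the strings with key 1047 -/
def M1047 : List ℕ := [559, 571, 574, 811, 814, 826]

/-- the strings with key 607 -/
def M607 : List ℕ := [447, 495, 507, 510, 639, 735, 759, 765, 879, 891, 894, 927, 951, 957, 987, 990, 999, 1005, 1014, 1017]

/-- the strings with key 188 -/
def M188 : List ℕ := [1520, 1904, 2000, 3440, 3536, 3920]

/-- the strings with key 1205 -/
def M1205 : List ℕ := [1314, 1554, 1569, 2322, 2337, 2577]

/-- the keys used in the search, with their members -/
def TY : List (ℕ × List ℕ) := [(447, M447), (63, M63), (587, M587), (1078, M1078), (1039, M1039), (626, M626), (602, M602), (151, M151), (1179, M1179), (1047, M1047), (607, M607), (188, M188), (1205, M1205)]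

set_option maxRecDepth 100000

lemma ext_A1 : (ext A0 1365 true == A1) = true := by decide +kernel

lemma ext_A2 : (ext A1 4095 true == A2) = true := by decide +kernel

lemma ext_A3_198 : (ext A2 198 true == A3_198) = true := by decide +kernel

lemma ext_A3_201 : (ext A2 201 true == A3_201) = true := by decide +kernel

lemma ext_A3_78 : (ext A2 78 true == A3_78) = true := by decide +kernel

lemma ext_A3_141 : (ext A2 141 true == A3_141) = true := by decide +kernel

lemma ext_A3_75 : (ext A2 75 true == A3_75) = true := by decide +kernel

lemma ext_A3_135 : (ext A2 135 true == A3_135) = true := by decide +kernel

lemma ext_A4_238 : (ext A3_201 238 false == A4_238) = true := by decide +kernel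

lemma ext_A4_187 : (ext A3_201 187 false == A4_187) = true := by decide +kernel

lemma ext_A5_588 : (ext A4_187 588 false == A5_588) = true := by decide +kernel

lemma ext_A6_791 : (ext A5_588 791 false == A6_791) = true := by decide +kernel

lemma ext_B4_250 : (ext A3_78 250 false == B4_250) = true := by decide +kernel

lemma ext_B4_175 : (ext A3_78 175 false == B4_175) = true := by decide +kernel

lemma ext_B5_390 : (ext B4_175 390 false == B5_390) = true := by decide +kernel

lemma ext_B6_574 : (ext B5_390 574 false == B6_574) = true := by decide +kernel

lemma chk_TY : allB (fun c => force (keyc c) (fun K => TY.all (fun e => K != e.1 || e.2.contains c))) 12 0 = true := by decide +kernel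

lemma chk_TY2 : TY.all (fun e => e.2.all (fun c => decide (c < 4096) && keyc c == e.1) && decide e.2.Nodup) = true := by decide +kernel

lemma chk_A0 : chk A0 M447 true [1365] = true := by decide +kernel

lemma chk_A1 : chk A1 M63 true [4095] = true := by decide +kernel

lemma chk_A2 : chk A2 M587 true [198, 201, 78, 141, 75, 135] = true := by decide +kernel

lemma chk_A3_198 : chk A3_198 M1078 false [] = true := by decide +kernel

lemma chk_A3_201 : chk A3_201 M1039 false [238, 187] = true := by decide +kernel

lemma chk_A4_238 : chk A4_238 M626 true [] = true := by decide +kernel

lemma chk_A4_187 : chk A4_187 M602 false [588] = true := by decide +kernel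

lemma chk_A5_588 : chk A5_588 M151 false [791] = true := by decide +kernel

lemma chk_A3_78 : chk A3_78 M1039 false [250, 175] = true := by decide +kernel

lemma chk_B4_250 : chk B4_250 M626 true [] = true := by decide +kernel

lemma chk_B4_175 : chk B4_175 M1179 false [390] = true := by decide +kernel

lemma chk_B5_390 : chk B5_390 M1047 false [574] = true := by decide +kernel

lemma chk_B6_574 : chk B6_574 M607 false [] = true := by decide +kernel

lemma chk_A3_141 : chk A3_141 M188 false [] = true := by decide +kernel

lemma chk_A3_75 : chk A3_75 M1205 false [] = true := by decide +kernel

lemma chk_A3_135 : chk A3_135 M1205 false [] = true := by decide +kernel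

lemma chk_final : gl.all (fun c => A6_791.contains (c, decide (gv c = -1))) = true := by
  decide +kernel

end Pool.Agent.R993.UC
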